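import Mathlib

set_option autoImplicit false

open Cardinal Set Filter

namespace Pool.Agent.Lib.MP_1b39b5_an

/-- A set is closed for a finitary operation `Φ`. -/
def Clo {α : Type} (Φ : Finset α → Set α) (M : Set α) : Prop :=
  ∀ F : Finset α, (F : Set α) ⊆ M → Φ F ⊆ M

/-- Iterating the operation `Φ`. -/
def iter {α : Type} (Φ : Finset α → Set α) (A : Set α) : ℕ → Set α
  | 0 => A
  | n + 1 => iter Φ A n ∪ ⋃ F : {F : Finset α // (F : Set α) ⊆ iter Φ A n}, Φ F.1

/-- The closure of a set under `Φ`. -/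
def cl {α : Type} (Φ : Finset α → Set α) (A : Set α) : Set α := ⋃ n, iter Φ A n

variable {α : Type} {Φ : Finset α → Set α}

theorem iter_mono_nat (A : Set α) : Monotone (iter Φ A) :=
  monotone_nat_of_le_succ fun _ => subset_union_left

theorem subset_cl (A : Set α) : A ⊆ cl Φ A := subset_iUnion (iter Φ A) 0

theorem finset_subset_iUnion {ι : Type} [LinearOrder ι] (N : ι → Set α) (hN : Monotone N)
    (P : ι → Prop) (F : Finset α) (hne : F.Nonempty)
    (hF : ∀ a ∈ F, ∃ i, P i ∧ a ∈ N i) : ∃ i, P i ∧ (F : Set α) ⊆ N i := by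
  classical
  induction hne using Finset.Nonempty.cons_induction with
  | singleton a =>
    obtain ⟨i, hi, ha⟩ := hF a (by simp)
    exact ⟨i, hi, by simpa using ha⟩
  | cons a s has hs ih =>
    obtain ⟨i, hi, ha⟩ := hF a (by simp)
    obtain ⟨j, hj, hs'⟩ := ih (fun b hb => hF b (by simp [hb]))
    rcases le_total i j with h | h
    · refine ⟨j, hj, ?_⟩
      intro x hx
      simp only [Finset.coe_cons, mem_insert_iff] at hx
      rcases hx with rfl | hx
      · exact hN h ha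
      · exact hs' hx
    · refine ⟨i, hi, ?_⟩
      intro x hx
      simp only [Finset.coe_cons, mem_insert_iff] at hx
      rcases hx with rfl | hx
      · exact ha
      · exact hN h (hs' hx)

theorem clo_cl (A : Set α) : Clo Φ (cl Φ A) := by
  intro F hF
  have : ∃ n, (F : Set α) ⊆ iter Φ A n := by
    rcases F.eq_empty_or_nonempty with rfl | hne
    · exact ⟨0, by simp⟩
    · obtain ⟨i, -, hi⟩ := finset_subset_iUnion (iter Φ A) (iter_mono_nat A) (fun _ => True) F hne
        (fun a ha => by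
          obtain ⟨n, hn⟩ := mem_iUnion.1 (hF ha)
          exact ⟨n, trivial, hn⟩)
      exact ⟨i, hi⟩
  obtain ⟨n, hn⟩ := this
  intro x hx
  refine mem_iUnion.2 ⟨n + 1, Or.inr (mem_iUnion.2 ⟨⟨F, hn⟩, hx⟩)⟩

theorem cl_subset {A M : Set α} (hM : Clo Φ M) (hA : A ⊆ M) : cl Φ A ⊆ M := by
  have : ∀ n, iter Φ A n ⊆ M := by
    intro n
    induction n with
    | zero => exact hA
    | succ n ih =>
      refine union_subset ih (iUnion_subset fun F => hM F.1 (F.2.trans ih))
  exact iUnion_subset this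

theorem cl_mono {A B : Set α} (h : A ⊆ B) : cl Φ A ⊆ cl Φ B :=
  cl_subset (clo_cl B) (h.trans (subset_cl B))

theorem mk_finsets_le (S : Set α) {κ : Cardinal} (hκ : ℵ₀ ≤ κ) (hS : #S ≤ κ) :
    #{F : Finset α // (F : Set α) ⊆ S} ≤ κ := by
  classical
  have h1 : #{F : Finset α // (F : Set α) ⊆ S} ≤ #(List S) := by
    refine mk_le_of_surjective
      (f := fun l : List S => (⟨(l.map Subtype.val).toFinset, ?_⟩ :
        {F : Finset α // (F : Set α) ⊆ S})) ?_
    · intro x hx
      simp only [List.coe_toFinset, List.mem_map, mem_ofPred_eq] at hx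
      obtain ⟨y, -, rfl⟩ := hx
      exact y.2
    · rintro ⟨F, hF⟩
      refine ⟨F.attach.toList.map (fun x => ⟨x.1, hF x.2⟩), ?_⟩
      ext x
      simp
  refine h1.trans ((mk_list_le_max S).trans (max_le hκ hS))

theorem mk_cl_le (hΦ : ∀ F, (Φ F).Countable) (A : Set α) {κ : Cardinal} (hκ : ℵ₀ ≤ κ)
    (hA : #A ≤ κ) : #(cl Φ A) ≤ κ := by
  have h : ∀ n, #(iter Φ A n) ≤ κ := by
    intro n
    induction n with
    | zero => exact hA
    | succ n ih =>
      refine (mk_union_le _ _).trans ?_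
      have h2 : #(⋃ F : {F : Finset α // (F : Set α) ⊆ iter Φ A n}, Φ F.1) ≤ κ := by
        refine (mk_iUnion_le _).trans ?_
        have h3 : ⨆ F : {F : Finset α // (F : Set α) ⊆ iter Φ A n}, #(Φ F.1) ≤ κ :=
          ciSup_le' fun F => ((hΦ F.1).le_aleph0).trans hκ
        calc _ ≤ κ * κ := mul_le_mul' (mk_finsets_le _ hκ ih) h3
          _ = κ := mul_eq_self hκ
      calc _ ≤ κ + κ := add_le_add ih h2
        _ = κ := add_eq_self hκ
  refine (mk_iUnion_le _).trans ?_
  calc _ ≤ κ * κ := mul_le_mul' (by simpa using hκ) (ciSup_le' h)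
    _ = κ := mul_eq_self hκ

/-- An uncountable set is covered by a well-ordered chain of closed sets of smaller size. -/
theorem exists_chain (hΦ : ∀ F, (Φ F).Countable) (A : Set α) (hA : ¬ A.Countable) :
    ∃ (ι : Type) (_ : LinearOrder ι) (_ : WellFoundedLT ι) (N : ι → Set α),
      Monotone N ∧ (∀ i, Clo Φ (N i)) ∧ (∀ a ∈ A, ∃ i, a ∈ N i) ∧ (∀ i, #(N i) < #A) ∧
      (∀ M, Clo Φ M → A ⊆ M → ∀ i, N i ⊆ M) := by
  obtain ⟨lo, wf, hord⟩ := Cardinal.exists_ord_eq_type_lt A
  have hA' : ℵ₀ < #A := by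
    by_contra h
    exact hA (le_aleph0_iff_set_countable.1 (not_lt.1 h))
  refine ⟨A, lo, wf, fun i => cl Φ (Subtype.val '' Iic i), ?_, fun i => clo_cl _, ?_, ?_, ?_⟩
  · intro i j hij
    exact cl_mono (image_mono (Iic_subset_Iic.2 hij))
  · intro a ha
    exact ⟨⟨a, ha⟩, subset_cl _ ⟨⟨a, ha⟩, mem_Iic.2 le_rfl, rfl⟩⟩
  · intro i
    have h1 : #(Iic i) < #A := mk_Iic_lt i hord hA'.le
    have h2 : #(Subtype.val '' Iic i) ≤ max ℵ₀ #(Iic i) := mk_image_le.trans (le_max_right _ _)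
    exact (mk_cl_le hΦ _ (le_max_left _ _) h2).trans_lt (max_lt hA' h1)
  · intro M hM hAM i
    refine cl_subset hM ?_
    rintro _ ⟨x, -, rfl⟩
    exact hAM x.2

/-- For a free ultrafilter on a well-order, most points have most points above them. -/
theorem ultra_wo {ι : Type} [LinearOrder ι] [WellFoundedLT ι] (U : Ultrafilter ι)
    (hU : ∀ i, ({i} : Set ι) ∉ U) : {t | Ioi t ∈ U} ∈ U := by
  by_contra h
  have hc : {t | Ioi t ∈ U}ᶜ ∈ U := Ultrafilter.compl_mem_iff_notMem.2 h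
  have hne : ({t | Ioi t ∈ U}ᶜ).Nonempty := U.nonempty_of_mem hc
  let b := wellFounded_lt.min _ hne
  have hb : b ∈ {t | Ioi t ∈ U}ᶜ := wellFounded_lt.min_mem _ hne
  have hb1 : Iic b ∈ U := by
    have : (Ioi b)ᶜ ∈ U := Ultrafilter.compl_mem_iff_notMem.2 hb
    simpa using this
  apply hU b
  filter_upwards [hb1, hc] with t ht1 ht2
  have : ¬ t < b := wellFounded_lt.not_lt_min _ ht2
  exact le_antisymm ht1 (not_lt.1 this)

/-- The free-sequence decomposition lemma. -/
theorem exists_free_decomposition (Φ : Finset α → Set α) (hΦ : ∀ F, (Φ F).Countable) :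
    ∃ ν : α → ℕ, ∀ U : Ultrafilter α, (∀ a, ({a} : Set α) ∉ U) → ∀ n, {a | ν a = n} ∈ U →
      ∃ V ∈ U, ∀ F : Finset α, F.Nonempty → (F : Set α) ⊆ V → Φ F ∉ U := by
  have key : ∀ (κ : Cardinal) (A : Set α), #A = κ →
      ∃ ν : α → ℕ, ∀ U : Ultrafilter α, (∀ a, ({a} : Set α) ∉ U) → A ∈ U → ∀ n,
        {a | ν a = n} ∈ U →
        ∃ V ∈ U, ∀ F : Finset α, F.Nonempty → (F : Set α) ⊆ V → Φ F ∉ U := by
    intro κ
    induction κ using Cardinal.lt_wf.induction with
    | _ κ ih =>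
    intro A hAκ
    by_cases hA : A.Countable
    · obtain ⟨f, hf⟩ := Set.countable_iff_exists_injOn.1 hA
      refine ⟨f, fun U hU hAU n hn => ?_⟩
      exfalso
      obtain ⟨a, ha1, ha2⟩ := U.nonempty_of_mem (inter_mem hAU hn)
      apply hU a
      filter_upwards [hAU, hn] with b hb1 hb2
      exact hf hb1 ha1 (by rw [show f b = n from hb2, show f a = n from ha2])
    · classical
      obtain ⟨ι, lo, wf, N, hmono, hclo, hcov, hcard, -⟩ := exists_chain hΦ A hA
      have hih := fun i => ih _ (hAκ ▸ hcard i) (N i) rfl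
      choose νs hνs using hih
      obtain ⟨a0, ha0⟩ : A.Nonempty := by
        rcases A.eq_empty_or_nonempty with rfl | h
        · exact (hA countable_empty).elim
        · exact h
      obtain ⟨i0, -⟩ := hcov a0 ha0
      let ρ : α → ι := fun a =>
        if h : ∃ i, a ∈ N i then wellFounded_lt.min {i | a ∈ N i} h else i0
      have hρ1 : ∀ a ∈ A, a ∈ N (ρ a) := by
        intro a ha
        have h := hcov a ha
        simp only [ρ, dif_pos h]
        exact wellFounded_lt.min_mem {i | a ∈ N i} h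
      have hρ2 : ∀ a i, a ∈ N i → ρ a ≤ i := by
        intro a i hi
        have h : ∃ i, a ∈ N i := ⟨i, hi⟩
        simp only [ρ, dif_pos h]
        exact not_lt.1 (wellFounded_lt.not_lt_min {i | a ∈ N i} hi)
      refine ⟨fun a => νs (ρ a) a, fun U hU hAU n hn => ?_⟩
      by_cases hfib : ∃ i, {a | ρ a = i} ∈ U
      · obtain ⟨i, hi⟩ := hfib
        refine hνs i U hU ?_ n ?_
        · filter_upwards [hAU, hi] with a ha1 ha2
          exact ha2 ▸ hρ1 a ha1
        · filter_upwards [hn, hi] with a ha1 ha2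
          exact ha2 ▸ ha1
      · push Not at hfib
        have h1 := ultra_wo (U.map ρ) (fun i hi => hfib i hi)
        refine ⟨A ∩ {a | Ioi (ρ a) ∈ U.map ρ}, inter_mem hAU h1, fun F hF hFV hΦU => ?_⟩
        obtain ⟨i, hi1, hi2⟩ := finset_subset_iUnion N hmono (fun i => Ioi i ∈ U.map ρ) F hF
          (fun a ha => ⟨ρ a, (hFV ha).2, hρ1 a (hFV ha).1⟩)
        have h3 : Φ F ⊆ N i := hclo i F hi2
        have h4 : ρ ⁻¹' Ioi i ∈ U := hi1
        obtain ⟨a, ha1, ha2⟩ := U.nonempty_of_mem (inter_mem hΦU h4)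
        exact absurd (hρ2 a i (h3 ha1)) (not_le.2 ha2)
  obtain ⟨ν, hν⟩ := key _ univ rfl
  exact ⟨ν, fun U hU n hn => hν U hU univ_mem n hn⟩

end Pool.Agent.Lib.MP_1b39b5_an
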