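import Mathlib

set_option autoImplicit false

open Set Filter Topology

namespace Pool.Agent.Lib.MP_1b39b5_an

/-- Weak convergence along a filter. -/
def WConv {E : Type} [NormedAddCommGroup E] [NormedSpace ℝ E] {ι : Type} (l : Filter ι)
    (u : ι → E) (x : E) : Prop :=
  ∀ f : StrongDual ℝ E, Tendsto (fun i => f (u i)) l (𝓝 (f x))

variable {E : Type} [NormedAddCommGroup E] [NormedSpace ℝ E]

/-- A chosen norming functional. -/
noncomputable def nf (x : E) : StrongDual ℝ E := (exists_dual_vector'' ℝ x).choose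

theorem nf_norm (x : E) : ‖nf x‖ ≤ 1 := (exists_dual_vector'' ℝ x).choose_spec.1

theorem nf_self (x : E) : nf x x = ‖x‖ := (exists_dual_vector'' ℝ x).choose_spec.2

theorem abs_le_of_norm_le_one {g : StrongDual ℝ E} (hg : ‖g‖ ≤ 1) (y : E) : |g y| ≤ ‖y‖ := by
  have := g.le_opNorm y
  rw [Real.norm_eq_abs] at this
  nlinarith [norm_nonneg y]

theorem nf_abs_le (x y : E) : |nf x y| ≤ ‖y‖ := abs_le_of_norm_le_one (nf_norm x) y

theorem tendsto_weak_iff {ι : Type} (l : Filter ι) (u : ι → E) (x : E) :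
    Tendsto (fun i => toWeakSpace ℝ E (u i)) l (𝓝 (toWeakSpace ℝ E x)) ↔ WConv l u x := by
  have hinj : Function.Injective (topDualPairing ℝ E).flip := by
    intro a b hab
    have h1 : nf (a - b) a = nf (a - b) b := by
      have := congrArg (fun φ => φ (nf (a - b))) hab
      exact this
    have h2 := nf_self (a - b)
    rw [map_sub, h1, sub_self] at h2
    exact sub_eq_zero.1 (norm_eq_zero.1 h2.symm)
  exact WeakBilin.tendsto_iff_forall_eval_tendsto (B := (topDualPairing ℝ E).flip) hinj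

theorem WConv.mem_of_convex {ι : Type} {l : Filter ι} [l.NeBot] {u : ι → E} {x : E}
    (h : WConv l u x) {V : Set E} (hV : Convex ℝ V) (hc : IsClosed V) (hu : ∀ᶠ i in l, u i ∈ V) :
    x ∈ V := by
  by_contra hx
  obtain ⟨f, c, h1, h2⟩ := geometric_hahn_banach_closed_point hV hc hx
  have h3 : f x ≤ c := le_of_tendsto (h f) (hu.mono fun i hi => (h1 _ hi).le)
  linarith

theorem WConv.norm_le {ι : Type} {l : Filter ι} [l.NeBot] {u : ι → E} {x : E}
    (h : WConv l u x) {c : ℝ} (hu : ∀ᶠ i in l, ‖u i‖ ≤ c) : ‖x‖ ≤ c := by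
  rw [← nf_self x]
  exact le_of_tendsto (h (nf x)) (hu.mono fun i hi => ((le_abs_self _).trans (nf_abs_le x _)).trans hi)

theorem WConv.sub {ι : Type} {l : Filter ι} {u v : ι → E} {x y : E}
    (h : WConv l u x) (h' : WConv l v y) : WConv l (fun i => u i - v i) (x - y) := by
  intro f
  simpa [map_sub] using (h f).sub (h' f)

theorem WConv.add {ι : Type} {l : Filter ι} {u v : ι → E} {x y : E}
    (h : WConv l u x) (h' : WConv l v y) : WConv l (fun i => u i + v i) (x + y) := by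
  intro f
  simpa [map_add] using (h f).add (h' f)

theorem wconv_const {ι : Type} (l : Filter ι) (x : E) : WConv l (fun _ => x) x :=
  fun _ => tendsto_const_nhds

/-- Weak compactness, in ultrafilter form. -/
def WK (C : Set E) : Prop :=
  ∀ (ι : Type) (U : Ultrafilter ι) (u : ι → E), (∀ᶠ i in U, u i ∈ C) → ∃ x ∈ C, WConv U u x

theorem wk_of_isCompact {K : Set E} (hK : IsCompact (toWeakSpace ℝ E '' K)) : WK K := by
  intro ι U u hu
  obtain ⟨x, ⟨y, hy, rfl⟩, hx⟩ := hK.ultrafilter_le_nhds (U.map fun i => toWeakSpace ℝ E (u i))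
    (by
      rw [le_principal_iff]
      exact mem_map.2 (hu.mono fun i hi => mem_image_of_mem _ hi))
  exact ⟨y, hy, (tendsto_weak_iff _ _ _).1 hx⟩

/-- The increasing sequence of weakly compact sets generated by `K`. -/
def gen (K : Set E) : ℕ → Set E
  | 0 => insert 0 K
  | n + 1 => {z | ∃ (a : ℝ) (x y : E), |a| ≤ n + 1 ∧ x ∈ gen K n ∧ y ∈ gen K n ∧ z = a • x + y}

theorem zero_mem_gen (K : Set E) (n : ℕ) : (0 : E) ∈ gen K n := by
  induction n with
  | zero => exact mem_insert _ _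
  | succ n ih => exact ⟨0, 0, 0, by simp; positivity, ih, ih, by simp⟩

theorem gen_mono (K : Set E) : Monotone (gen K) :=
  monotone_nat_of_le_succ fun n y hy =>
    ⟨0, 0, y, by simp; positivity, zero_mem_gen K n, hy, by simp⟩

theorem span_subset_gen (K : Set E) (x : E) (hx : x ∈ Submodule.span ℝ K) : ∃ n, x ∈ gen K n := by
  induction hx using Submodule.span_induction with
  | mem x hx => exact ⟨0, mem_insert_of_mem _ hx⟩
  | zero => exact ⟨0, zero_mem_gen K 0⟩
  | add x y _ _ hx hy =>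
    obtain ⟨m, hm⟩ := hx
    obtain ⟨n, hn⟩ := hy
    refine ⟨max m n + 1, 1, x, y, ?_, gen_mono K (le_max_left _ _) hm,
      gen_mono K (le_max_right _ _) hn, by simp⟩
    simp only [abs_one, le_add_iff_nonneg_left]
    positivity
  | smul a x _ hx =>
    obtain ⟨m, hm⟩ := hx
    obtain ⟨k, hk⟩ := exists_nat_ge |a|
    refine ⟨max m k + 1, a, x, 0, ?_, gen_mono K (le_max_left _ _) hm, zero_mem_gen K _, by simp⟩
    have : (k : ℝ) ≤ (max m k : ℕ) := by exact_mod_cast le_max_right _ _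
    linarith

theorem wk_gen {K : Set E} (hK : WK K) (n : ℕ) : WK (gen K n) := by
  induction n with
  | zero =>
    intro ι U u hu
    by_cases h : ∀ᶠ i in U, u i ∈ K
    · obtain ⟨x, hx, hx'⟩ := hK ι U u h
      exact ⟨x, mem_insert_of_mem _ hx, hx'⟩
    · have h' := Ultrafilter.eventually_not.2 h
      refine ⟨0, mem_insert _ _, fun f => ?_⟩
      refine tendsto_const_nhds.congr' ?_
      filter_upwards [hu, h'] with i h1 h2
      rcases h1 with h1 | h1
      · rw [h1]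
      · exact (h2 h1).elim
  | succ n ih =>
    intro ι U u hu
    have : ∀ i, ∃ (a : ℝ) (x y : E), |a| ≤ n + 1 ∧ x ∈ gen K n ∧ y ∈ gen K n ∧
        (u i ∈ gen K (n + 1) → u i = a • x + y) := by
      intro i
      by_cases h : u i ∈ gen K (n + 1)
      · obtain ⟨a, x, y, h1, h2, h3, h4⟩ := h
        exact ⟨a, x, y, h1, h2, h3, fun _ => h4⟩
      · exact ⟨0, 0, 0, by simp; positivity, zero_mem_gen K n, zero_mem_gen K n,
          fun h' => (h h').elim⟩
    choose a x y h1 h2 h3 h4 using this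
    obtain ⟨x0, hx0, hx⟩ := ih ι U x (Eventually.of_forall h2)
    obtain ⟨y0, hy0, hy⟩ := ih ι U y (Eventually.of_forall h3)
    obtain ⟨a0, ha0, ha⟩ := (isCompact_Icc (a := -((n : ℝ) + 1)) (b := n + 1)).ultrafilter_le_nhds
      (U.map a) (by
        rw [le_principal_iff]
        exact mem_map.2 (Eventually.of_forall fun i => abs_le.1 (h1 i)))
    refine ⟨a0 • x0 + y0, ⟨a0, x0, y0, abs_le.2 ha0, hx0, hy0, rfl⟩, fun f => ?_⟩
    have ha' : Tendsto a U (𝓝 a0) := ha
    have := (ha'.mul (hx f)).add (hy f)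
    simp only [map_add, map_smul, smul_eq_mul]
    refine this.congr' ?_
    filter_upwards [hu] with i hi
    rw [h4 i hi]
    simp

/-- A weakly compactly generated space has a sequence of weakly compact sets with dense union. -/
theorem exists_seq_of_wcg {K : Set E} (hK : IsCompact (toWeakSpace ℝ E '' K))
    (hd : Dense (Submodule.span ℝ K : Set E)) :
    ∃ C : ℕ → Set E, (∀ n, WK (C n)) ∧ ∀ w : E, ∀ δ : ℝ, 0 < δ → ∃ n, ∃ k ∈ C n, ‖w - k‖ ≤ δ := by
  refine ⟨gen K, wk_gen (wk_of_isCompact hK), fun w δ hδ => ?_⟩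
  obtain ⟨k, hk1, hk2⟩ := Metric.dense_iff.1 hd w δ hδ
  obtain ⟨n, hn⟩ := span_subset_gen K k hk2
  refine ⟨n, k, hn, ?_⟩
  rw [Metric.mem_ball, dist_comm, dist_eq_norm] at hk1
  exact hk1.le

/-- An ultrafilter which is close to weakly compact sets at every scale converges weakly. -/
theorem wconv_of_approx [CompleteSpace E] {C : ℕ → Set E} (hC : ∀ n, WK (C n)) {ι : Type}
    (U : Ultrafilter ι) (u : ι → E)
    (hu : ∀ m : ℕ, ∃ n, ∀ᶠ i in U, ∃ k ∈ C n, ‖u i - k‖ ≤ 1 / ((m : ℝ) + 1)) :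
    ∃ w, WConv U u w := by
  have h1 : ∀ m : ℕ, ∃ (k : ι → E) (k0 : E), WConv U k k0 ∧
      ∀ᶠ i in U, ‖u i - k i‖ ≤ 1 / ((m : ℝ) + 1) := by
    intro m
    obtain ⟨n, hn⟩ := hu m
    have : ∀ i, ∃ k : E, (∃ k ∈ C n, ‖u i - k‖ ≤ 1 / ((m : ℝ) + 1)) →
        k ∈ C n ∧ ‖u i - k‖ ≤ 1 / ((m : ℝ) + 1) := by
      intro i
      by_cases h : ∃ k ∈ C n, ‖u i - k‖ ≤ 1 / ((m : ℝ) + 1)
      · obtain ⟨k, hk⟩ := h
        exact ⟨k, fun _ => hk⟩
      · exact ⟨0, fun h' => (h h').elim⟩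
    choose k hk using this
    obtain ⟨k0, -, hk0⟩ := hC n ι U k (hn.mono fun i hi => (hk i hi).1)
    exact ⟨k, k0, hk0, hn.mono fun i hi => (hk i hi).2⟩
  choose k k0 hk hk' using h1
  have h2 : ∀ m m' : ℕ, ‖k0 m - k0 m'‖ ≤ 1 / ((m : ℝ) + 1) + 1 / ((m' : ℝ) + 1) := by
    intro m m'
    refine ((hk m).sub (hk m')).norm_le ?_
    filter_upwards [hk' m, hk' m'] with i h1 h2
    calc ‖k m i - k m' i‖ = ‖(u i - k m' i) - (u i - k m i)‖ := by congr 1; abel
      _ ≤ ‖u i - k m' i‖ + ‖u i - k m i‖ := norm_sub_le _ _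
      _ ≤ _ := by linarith
  have hlim : Tendsto (fun m : ℕ => 1 / ((m : ℝ) + 1)) atTop (𝓝 0) :=
    tendsto_one_div_add_atTop_nhds_zero_nat
  have h3 : CauchySeq k0 := by
    refine cauchySeq_of_le_tendsto_0 (fun N : ℕ => 1 / ((N : ℝ) + 1) + 1 / ((N : ℝ) + 1)) ?_ ?_
    · intro n m N hn hm
      rw [dist_eq_norm]
      refine (h2 n m).trans (add_le_add ?_ ?_)
      · exact Nat.one_div_le_one_div hn
      · exact Nat.one_div_le_one_div hm
    · simpa using hlim.add hlim
  obtain ⟨w, hw⟩ := cauchySeq_tendsto_of_complete h3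
  refine ⟨w, fun f => ?_⟩
  rw [Metric.tendsto_nhds]
  intro ε hε
  have h4 : Tendsto (fun m : ℕ => ‖f‖ * (1 / ((m : ℝ) + 1)) + dist (f (k0 m)) (f w)) atTop
      (𝓝 (‖f‖ * 0 + dist (f w) (f w))) :=
    (hlim.const_mul _).add (((f.continuous.tendsto w).comp hw).dist tendsto_const_nhds)
  simp only [mul_zero, dist_self, add_zero] at h4
  obtain ⟨m, hm⟩ := (h4.eventually (gt_mem_nhds (half_pos hε))).exists
  filter_upwards [hk' m, Metric.tendsto_nhds.1 (hk m f) _ (half_pos hε)] with i h5 h6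
  have h7 : dist (f (u i)) (f (k m i)) ≤ ‖f‖ * (1 / ((m : ℝ) + 1)) := by
    rw [dist_eq_norm, ← map_sub]
    exact (f.le_opNorm _).trans (mul_le_mul_of_nonneg_left h5 (norm_nonneg _))
  have h8 := dist_triangle4 (f (u i)) (f (k m i)) (f (k0 m)) (f w)
  linarith

end Pool.Agent.Lib.MP_1b39b5_an
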