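import Mathlib
import Pool.Agent.Lib.MP_1b39b5_an.Comb
import Pool.Agent.Lib.MP_1b39b5_an.Weak

set_option autoImplicit false

open Set Filter Topology Cardinal

namespace Pool.Agent.Lib.MP_1b39b5_an

variable {Y : Type} [NormedAddCommGroup Y] [NormedSpace ℝ Y]

/-- A weakly K-analytic structure on `Y`. -/
def KA (S : ℕ → ℕ → Set Y) : Prop :=
  (∀ y m, ∃ n, y ∈ S m n) ∧
    ∀ (ι : Type) (U : Ultrafilter ι) (u : ι → Y), (∀ m, ∃ n, ∀ᶠ i in U, u i ∈ S m n) →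
      ∃ y, WConv U u y

theorem KA.exists_ultra {S : ℕ → ℕ → Set Y} (hS : KA S) {ι : Type} (J : Set ι)
    (hJ : ¬ J.Countable) (z : ι → Y) :
    ∃ U : Ultrafilter ι, (∀ i, ({i} : Set ι) ∉ U) ∧ J ∈ U ∧ ∃ y, WConv U z y := by
  choose σ hσ using hS.1
  have key : ∃ τ : ℕ → ℕ, (cofinite ⊓ 𝓟 J ⊓ comap (fun i => σ (z i)) (𝓝 τ)).NeBot := by
    by_contra h
    push Not at h
    have h1 : ∀ τ : ℕ → ℕ, ∃ V ∈ 𝓝 τ, (J ∩ (fun i => σ (z i)) ⁻¹' V).Finite := by
      intro τ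
      have h2 : (∅ : Set ι) ∈ cofinite ⊓ 𝓟 J ⊓ comap (fun i => σ (z i)) (𝓝 τ) := by
        rw [h τ]; exact mem_bot
      obtain ⟨t1, ht1, t2, ht2, h3⟩ := mem_inf_iff.1 h2
      obtain ⟨s1, hs1, s2, hs2, rfl⟩ := mem_inf_iff.1 ht1
      obtain ⟨V, hV, hV2⟩ := mem_comap.1 ht2
      refine ⟨V, hV, (mem_cofinite.1 hs1).subset ?_⟩
      rintro i ⟨hi1, hi2⟩ hi3
      have : i ∈ s1 ∩ s2 ∩ t2 := ⟨⟨hi3, hs2 hi1⟩, hV2 hi2⟩
      rw [← h3] at this
      exact this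
    choose V hV hV' using h1
    obtain ⟨s, hs, hs'⟩ := TopologicalSpace.countable_cover_nhds hV
    apply hJ
    refine (hs.biUnion fun τ _ => (hV' τ).countable).mono ?_
    intro i hi
    have : σ (z i) ∈ ⋃ τ ∈ s, V τ := by rw [hs']; exact mem_univ _
    obtain ⟨τ, hτ, h4⟩ := mem_iUnion₂.1 this
    exact mem_iUnion₂.2 ⟨τ, hτ, hi, h4⟩
  obtain ⟨τ, hτ⟩ := key
  let U := Ultrafilter.of (cofinite ⊓ 𝓟 J ⊓ comap (fun i => σ (z i)) (𝓝 τ))
  have hU : (U : Filter ι) ≤ cofinite ⊓ 𝓟 J ⊓ comap (fun i => σ (z i)) (𝓝 τ) :=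
    Ultrafilter.of_le _
  have hU1 : (U : Filter ι) ≤ cofinite := hU.trans (inf_le_left.trans inf_le_left)
  have hU2 : (U : Filter ι) ≤ 𝓟 J := hU.trans (inf_le_left.trans inf_le_right)
  have hU3 : (U : Filter ι) ≤ comap (fun i => σ (z i)) (𝓝 τ) := hU.trans inf_le_right
  refine ⟨U, fun i hi => ?_, le_principal_iff.1 hU2, hS.2 ι U z fun m => ⟨τ m, ?_⟩⟩
  · have : ({i} : Set ι)ᶜ ∈ U := hU1 (finite_singleton i).compl_mem_cofinite
    exact (Ultrafilter.compl_mem_iff_notMem.1 this) hi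
  · have h5 : {ρ : ℕ → ℕ | ρ m = τ m} ∈ 𝓝 τ := by
      have : Continuous fun ρ : ℕ → ℕ => ρ m := continuous_apply m
      exact this.continuousAt.preimage_mem_nhds (t := {τ m}) (by simp)
    have h6 : (fun i => σ (z i)) ⁻¹' {ρ : ℕ → ℕ | ρ m = τ m} ∈ U := hU3 (preimage_mem_comap h5)
    filter_upwards [h6] with i hi
    have : σ (z i) m = τ m := hi
    rw [← this]
    exact hσ _ _

theorem exists_witnesses (F : Finset Y) (B : Set Y) :
    ∃ D : Set Y, D ⊆ B ∧ D.Countable ∧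
      ∀ y ∈ B, ∀ ε : ℝ, 0 < ε → ∃ d ∈ D, ∀ a ∈ F, |nf a d - nf a y| < ε := by
  let φ : Y → (F → ℝ) := fun y a => nf (a : Y) y
  obtain ⟨t, ht1, ht2, ht3⟩ :=
    (TopologicalSpace.IsSeparable.of_separableSpace (φ '' B)).exists_countable_dense_subset
  have h1 : ∀ x : t, ∃ y ∈ B, φ y = x := fun x => ht1 x.2
  choose g hg1 hg2 using h1
  have := ht2.to_subtype
  refine ⟨range g, range_subset_iff.2 hg1, countable_range g, fun y hy ε hε => ?_⟩
  obtain ⟨x, hx1, hx2⟩ := Metric.mem_closure_iff.1 (ht3 (mem_image_of_mem φ hy)) ε hε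
  refine ⟨g ⟨x, hx1⟩, mem_range_self _, fun a ha => ?_⟩
  have h2 : dist (φ y ⟨a, ha⟩) (φ (g ⟨x, hx1⟩) ⟨a, ha⟩) < ε := by
    rw [hg2]
    exact (dist_le_pi_dist (φ y) x ⟨a, ha⟩).trans_lt hx2
  rw [Real.dist_eq, abs_sub_comm] at h2
  exact h2

/-- Sets that are rich enough to induce a projection of `E`. -/
def Nice (S : ℕ → ℕ → Set Y) (E : Submodule ℝ Y) (M : Set Y) : Prop :=
  (∀ a ∈ M, ∀ b ∈ M, a + b ∈ M) ∧ (∀ a ∈ M, ∀ q : ℚ, (q : ℝ) • a ∈ M) ∧
    ∀ F : Finset Y, F.Nonempty → (F : Set Y) ⊆ M → ∀ T : Finset (ℕ × ℕ), ∀ y ∈ E,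
      (∀ p ∈ T, y ∈ S p.1 p.2) → ∀ ε : ℝ, 0 < ε →
        ∃ d ∈ M, (∀ p ∈ T, d ∈ S p.1 p.2) ∧ ∀ a ∈ F, |nf a d - nf a y| < ε

theorem exists_operation (S : ℕ → ℕ → Set Y) (E : Submodule ℝ Y) :
    ∃ Φ : Finset Y → Set Y, (∀ F, (Φ F).Countable) ∧ Φ ∅ = ∅ ∧ Clo Φ E ∧
      ∀ M, Clo Φ M → Nice S E M := by
  classical
  have h := fun (F : Finset Y) (T : Finset (ℕ × ℕ)) =>
    exists_witnesses F {y | y ∈ E ∧ ∀ p ∈ T, y ∈ S p.1 p.2}
  choose D hD1 hD2 hD3 using h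
  refine ⟨fun F => ⋃ a ∈ (F : Set Y), ((fun b => a + b) '' (F : Set Y) ∪
    range (fun q : ℚ => (q : ℝ) • a) ∪ ⋃ T, D F T), fun F => ?_, by simp, ?_, ?_⟩
  · refine F.countable_toSet.biUnion fun a _ => ?_
    exact ((F.countable_toSet.image _).union (countable_range _)).union
      (countable_iUnion fun T => hD2 F T)
  · intro F hF
    refine iUnion₂_subset fun a ha => union_subset (union_subset ?_ ?_) ?_
    · rintro _ ⟨b, hb, rfl⟩
      exact E.add_mem (hF ha) (hF hb)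
    · rintro _ ⟨q, rfl⟩
      exact E.smul_mem _ (hF ha)
    · exact iUnion_subset fun T y hy => (hD1 F T hy).1
  · intro M hM
    refine ⟨fun a ha b hb => ?_, fun a ha q => ?_, fun F hF hFM T y hy hyT ε hε => ?_⟩
    · refine hM {a, b} (by simp [insert_subset_iff, ha, hb]) ?_
      exact mem_iUnion₂.2 ⟨a, by simp, Or.inl (Or.inl ⟨b, by simp, rfl⟩)⟩
    · refine hM {a} (by simp [ha]) ?_
      exact mem_iUnion₂.2 ⟨a, by simp, Or.inl (Or.inr ⟨q, rfl⟩)⟩
    · obtain ⟨d, hd1, hd2⟩ := hD3 F T y ⟨hy, hyT⟩ ε hε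
      obtain ⟨a, ha⟩ := hF
      refine ⟨d, hM F hFM ?_, (hD1 F T hd1).2, hd2⟩
      exact mem_iUnion₂.2 ⟨a, ha, Or.inr (mem_iUnion.2 ⟨T, hd1⟩)⟩

/-- Closed linear span. -/
def cspan (M : Set Y) : Submodule ℝ Y := (Submodule.span ℝ M).topologicalClosure

theorem subset_cspan (M : Set Y) : M ⊆ cspan M :=
  Submodule.subset_span.trans (Submodule.le_topologicalClosure _)

theorem isClosed_cspan (M : Set Y) : IsClosed (cspan M : Set Y) :=
  Submodule.isClosed_topologicalClosure _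

theorem cspan_le {M : Set Y} {E : Submodule ℝ Y} (hE : IsClosed (E : Set Y)) (h : M ⊆ E) :
    cspan M ≤ E :=
  Submodule.topologicalClosure_minimal _ (Submodule.span_le.2 h) hE

theorem cspan_mono {M N : Set Y} (h : M ⊆ N) : cspan M ≤ cspan N :=
  cspan_le (isClosed_cspan N) (h.trans (subset_cspan N))

theorem cspan_subset_closure {M : Set Y} (hne : M.Nonempty) (h1 : ∀ a ∈ M, ∀ b ∈ M, a + b ∈ M)
    (h2 : ∀ a ∈ M, ∀ q : ℚ, (q : ℝ) • a ∈ M) : (cspan M : Set Y) ⊆ closure M := by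
  let V : Submodule ℝ Y :=
    { carrier := closure M
      add_mem' := fun {a b} ha hb =>
        map_mem_closure₂ (f := fun x y : Y => x + y) continuous_add ha hb h1
      zero_mem' := by
        obtain ⟨a, ha⟩ := hne
        exact subset_closure (by simpa using h2 a ha 0)
      smul_mem' := fun c x hx => by
        have hc : c ∈ closure (range ((↑) : ℚ → ℝ)) := Rat.denseRange_cast c
        refine map_mem_closure₂ (f := fun (c : ℝ) (y : Y) => c • y) continuous_smul hc hx ?_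
        rintro _ ⟨q, rfl⟩ b hb
        exact h2 b hb q }
  exact cspan_le (E := V) isClosed_closure subset_closure

theorem eq_zero_of_nf {M : Set Y} (h1 : ∀ a ∈ M, ∀ b ∈ M, a + b ∈ M)
    (h2 : ∀ a ∈ M, ∀ q : ℚ, (q : ℝ) • a ∈ M) {z : Y} (hz : z ∈ cspan M)
    (h : ∀ a ∈ M, nf a z = 0) : z = 0 := by
  rcases M.eq_empty_or_nonempty with rfl | hne
  · have : cspan (∅ : Set Y) ≤ ⊥ := cspan_le (by simp) (empty_subset _)
    simpa using this hz
  · have hz' := cspan_subset_closure hne h1 h2 hz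
    by_contra hz0
    have hpos : 0 < ‖z‖ := norm_pos_iff.2 hz0
    obtain ⟨a, ha, hd⟩ := Metric.mem_closure_iff.1 hz' (‖z‖ / 2) (half_pos hpos)
    rw [dist_eq_norm] at hd
    have h3 : ‖a‖ ≤ ‖z - a‖ := by
      have h4 := nf_abs_le a (z - a)
      rw [map_sub, h a ha, nf_self, zero_sub, abs_neg, abs_norm] at h4
      exact h4
    have h5 : ‖z‖ ≤ ‖z - a‖ + ‖a‖ := by simpa using norm_add_le (z - a) a
    linarith

theorem KA.decomp {S : ℕ → ℕ → Set Y} (hS : KA S) {E : Submodule ℝ Y} {M : Set Y}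
    (hM : Nice S E M) {y : Y} (hy : y ∈ E) : ∃ e ∈ cspan M, ∀ a ∈ M, nf a (y - e) = 0 := by
  classical
  rcases M.eq_empty_or_nonempty with rfl | ⟨a0, ha0⟩
  · exact ⟨0, zero_mem _, fun a ha => ha.elim⟩
  choose σ hσ using hS.1 y
  have h : ∀ p : Finset M × ℕ, ∃ d ∈ M, (∀ m ≤ p.2, d ∈ S m (σ m)) ∧
      ∀ a ∈ p.1, |nf (a : Y) d - nf (a : Y) y| < 1 / ((p.2 : ℝ) + 1) := by
    rintro ⟨F, j⟩
    obtain ⟨d, hd1, hd2, hd3⟩ := hM.2.2 (insert a0 (F.image Subtype.val)) (by simp)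
      (by
        intro x hx
        simp only [Finset.coe_insert, Finset.coe_image, mem_insert_iff, mem_image] at hx
        rcases hx with rfl | ⟨b, -, rfl⟩
        · exact ha0
        · exact b.2)
      ((Finset.range (j + 1)).image fun m => (m, σ m)) y hy
      (by
        intro p hp
        obtain ⟨m, -, rfl⟩ := Finset.mem_image.1 hp
        exact hσ m)
      (1 / ((j : ℝ) + 1)) (by positivity)
    refine ⟨d, hd1, fun m hm => hd2 (m, σ m) ?_, fun a ha => hd3 a ?_⟩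
    · exact Finset.mem_image.2 ⟨m, Finset.mem_range.2 (Nat.lt_succ_of_le hm), rfl⟩
    · exact Finset.mem_insert_of_mem (Finset.mem_image_of_mem _ ha)
  choose d hd1 hd2 hd3 using h
  let U := Ultrafilter.of (atTop : Filter (Finset M × ℕ))
  have hU : (U : Filter (Finset M × ℕ)) ≤ atTop := Ultrafilter.of_le _
  have hsnd : Tendsto (fun p : Finset M × ℕ => p.2) U atTop := by
    refine Tendsto.mono_left ?_ hU
    rw [← prod_atTop_atTop_eq]
    exact tendsto_snd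
  have hfst : Tendsto (fun p : Finset M × ℕ => p.1) U atTop := by
    refine Tendsto.mono_left ?_ hU
    rw [← prod_atTop_atTop_eq]
    exact tendsto_fst
  obtain ⟨e, he⟩ := hS.2 _ U d fun m =>
    ⟨σ m, (hsnd.eventually (eventually_ge_atTop m)).mono fun p hp => hd2 p m hp⟩
  refine ⟨e, he.mem_of_convex (cspan M).convex (isClosed_cspan M)
    (Eventually.of_forall fun p => subset_cspan M (hd1 p)), fun a ha => ?_⟩
  have h1 : Tendsto (fun p => nf a (d p)) U (𝓝 (nf a y)) := by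
    rw [tendsto_iff_dist_tendsto_zero]
    refine squeeze_zero' (Eventually.of_forall fun _ => dist_nonneg) ?_
      (tendsto_one_div_add_atTop_nhds_zero_nat.comp hsnd)
    filter_upwards [hfst.eventually (eventually_ge_atTop {⟨a, ha⟩})] with p hp
    exact (hd3 p ⟨a, ha⟩ (hp (Finset.mem_singleton_self _))).le
  rw [map_sub, tendsto_nhds_unique h1 (he (nf a)), sub_self]

/-- The annihilated part of a closed span. -/
def piece (N M : Set Y) : Submodule ℝ Y where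
  carrier := {z | z ∈ cspan N ∧ ∀ a ∈ M, nf a z = 0}
  add_mem' := fun {x y} hx hy => ⟨add_mem hx.1 hy.1, fun a ha => by
    rw [map_add, hx.2 a ha, hy.2 a ha, add_zero]⟩
  zero_mem' := ⟨zero_mem _, fun a _ => map_zero _⟩
  smul_mem' := fun c x hx => ⟨Submodule.smul_mem _ c hx.1, fun a ha => by
    rw [map_smul, hx.2 a ha, smul_zero]⟩

theorem isClosed_piece (N M : Set Y) : IsClosed (piece N M : Set Y) := by
  have : (piece N M : Set Y) = (cspan N : Set Y) ∩ ⋂ a ∈ M, {z | nf a z = 0} := by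
    ext z
    simp only [mem_inter_iff, mem_iInter]
    rfl
  rw [this]
  exact (isClosed_cspan N).inter
    (isClosed_biInter fun a _ => isClosed_eq (nf a).continuous continuous_const)

theorem clo_iUnion {α ι : Type} {Φ : Finset α → Set α} (h0 : Φ ∅ = ∅) [LinearOrder ι]
    (N : ι → Set α) (hN : Monotone N) (hc : ∀ i, Clo Φ (N i)) (P : ι → Prop) :
    Clo Φ (⋃ i ∈ {i | P i}, N i) := by
  intro F hF
  rcases F.eq_empty_or_nonempty with rfl | hne
  · rw [h0]; exact empty_subset _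
  · obtain ⟨i, hi1, hi2⟩ := finset_subset_iUnion N hN P F hne fun a ha => by
      obtain ⟨i, hi, h⟩ := mem_iUnion₂.1 (hF ha)
      exact ⟨i, hi, h⟩
    exact (hc i F hi2).trans (subset_biUnion_of_mem (u := N) (s := {i | P i}) hi1)

theorem KA.exists_family_aux {S : ℕ → ℕ → Set Y} (hS : KA S) (κ : Cardinal) :
    ∀ E : Submodule ℝ Y, IsClosed (E : Set Y) → ∀ A : Set Y, A ⊆ E → #A = κ →
      ∃ Γ : Set Y, Γ ⊆ E ∧ A ⊆ cspan Γ ∧ ∀ f : StrongDual ℝ Y, {γ ∈ Γ | f γ ≠ 0}.Countable := by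
  induction κ using Cardinal.lt_wf.induction with
  | _ κ ih =>
  intro E hE A hAE hAκ
  by_cases hA : A.Countable
  · exact ⟨A, hAE, subset_cspan A, fun f => hA.mono (sep_subset _ _)⟩
  obtain ⟨Φ, hΦ, hΦ0, hΦE, hnice⟩ := exists_operation S E
  obtain ⟨ι, lo, wf, N, hmono, hclo, hcov, hcard, hsub⟩ := exists_chain hΦ A hA
  have hNE : ∀ i, N i ⊆ E := hsub E hΦE hAE
  let M : ι → Set Y := fun s => ⋃ t ∈ {t | t < s}, N t
  have hM : ∀ s, Nice S E (M s) := fun s => hnice _ (clo_iUnion hΦ0 N hmono hclo _)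
  have hMN : ∀ s, M s ⊆ N s := fun s => iUnion₂_subset fun t ht => hmono (le_of_lt ht)
  have hdec : ∀ s, ∀ a : N s, ∃ e ∈ cspan (M s), ∀ b ∈ M s, nf b (a - e) = 0 :=
    fun s a => hS.decomp (hM s) (hNE s a.2)
  choose e he1 he2 using hdec
  have hΓ : ∀ s, ∃ Γ : Set Y, Γ ⊆ piece (N s) (M s) ∧
      range (fun a : N s => (a : Y) - e s a) ⊆ cspan Γ ∧
      ∀ f : StrongDual ℝ Y, {γ ∈ Γ | f γ ≠ 0}.Countable := by
    intro s
    refine ih _ (hAκ ▸ (mk_range_le.trans_lt (hcard s))) _ (isClosed_piece _ _) _ ?_ rfl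
    rintro _ ⟨a, rfl⟩
    exact ⟨sub_mem (subset_cspan _ a.2) (cspan_mono (hMN s) (he1 s a)), he2 s a⟩
  choose Γ hΓ1 hΓ2 hΓ3 using hΓ
  refine ⟨⋃ s, Γ s, iUnion_subset fun s γ hγ => cspan_le hE (hNE s) (hΓ1 s hγ).1, ?_, ?_⟩
  · have : ∀ s, N s ⊆ cspan (⋃ s, Γ s) := by
      intro s
      induction s using WellFoundedLT.induction with
      | ind s ihs =>
      intro a ha
      have h1 : e s ⟨a, ha⟩ ∈ cspan (⋃ s, Γ s) :=
        cspan_le (isClosed_cspan _) (iUnion₂_subset fun t ht => ihs t ht) (he1 s ⟨a, ha⟩)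
      have h2 : a - e s ⟨a, ha⟩ ∈ cspan (⋃ s, Γ s) :=
        cspan_mono (subset_iUnion Γ s) (hΓ2 s ⟨⟨a, ha⟩, rfl⟩)
      simpa using add_mem h1 h2
    intro a ha
    obtain ⟨i, hi⟩ := hcov a ha
    exact this i hi
  · intro f
    have hJ : {s | ∃ γ ∈ Γ s, f γ ≠ 0}.Countable := by
      by_contra hJ
      have h1 : ∀ s, ∃ z ∈ piece (N s) (M s), (∃ γ ∈ Γ s, f γ ≠ 0) → f z = 1 := by
        intro s
        by_cases h : ∃ γ ∈ Γ s, f γ ≠ 0
        · obtain ⟨γ, hγ, hf⟩ := h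
          refine ⟨(f γ)⁻¹ • γ, Submodule.smul_mem _ _ (hΓ1 s hγ), fun _ => ?_⟩
          rw [map_smul, smul_eq_mul, inv_mul_cancel₀ hf]
        · exact ⟨0, zero_mem _, fun h' => (h h').elim⟩
      choose z hz1 hz2 using h1
      obtain ⟨U, hU1, hU2, y, hy⟩ := hS.exists_ultra _ hJ z
      have hU3 := ultra_wo U hU1
      have hfy : f y = 1 := by
        refine tendsto_nhds_unique (hy f) (tendsto_const_nhds.congr' ?_)
        filter_upwards [hU2] with s hs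
        exact (hz2 s hs).symm
      have hL := hnice _ (clo_iUnion hΦ0 N hmono hclo (fun t => Ioi t ∈ U))
      have hy0 : y = 0 := by
        refine eq_zero_of_nf hL.1 hL.2.1 ?_ ?_
        · refine hy.mem_of_convex (cspan _).convex (isClosed_cspan _) ?_
          filter_upwards [hU3] with s hs
          exact cspan_mono (subset_biUnion_of_mem (u := N) (s := {t | Ioi t ∈ U}) hs) (hz1 s).1
        · intro a ha
          obtain ⟨t, ht, hat⟩ := mem_iUnion₂.1 ha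
          refine tendsto_nhds_unique (hy (nf a)) (tendsto_const_nhds.congr' ?_)
          have ht' : Ioi t ∈ U := ht
          filter_upwards [ht'] with s hs
          exact ((hz1 s).2 a (mem_iUnion₂.2 ⟨t, hs, hat⟩)).symm
      rw [hy0, map_zero] at hfy
      exact zero_ne_one hfy
    refine (hJ.biUnion fun s _ => hΓ3 s f).mono ?_
    rintro γ ⟨hγ1, hγ2⟩
    obtain ⟨s, hs⟩ := mem_iUnion.1 hγ1
    exact mem_iUnion₂.2 ⟨s, ⟨γ, hs, hγ2⟩, hs, hγ2⟩

/-- A weakly K-analytic space has a bounded linearly dense family on which every functional has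
countable support. -/
theorem KA.exists_family {S : ℕ → ℕ → Set Y} (hS : KA S) :
    ∃ (Γ : Type) (y : Γ → Y), (∀ γ, ‖y γ‖ ≤ 1) ∧ (∀ v, v ∈ cspan (range y)) ∧
      ∀ f : StrongDual ℝ Y, {γ | f (y γ) ≠ 0}.Countable := by
  obtain ⟨Γ, -, h1, h2⟩ := hS.exists_family_aux _ ⊤ isClosed_univ univ (by simp) rfl
  refine ⟨Γ, fun γ => (‖(γ : Y)‖ + 1)⁻¹ • (γ : Y), fun γ => ?_, fun v => ?_, fun f => ?_⟩
  · have : 0 < ‖(γ : Y)‖ + 1 := by positivity
    rw [norm_smul, norm_inv, Real.norm_of_nonneg this.le, inv_mul_le_iff₀ this]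
    linarith
  · refine cspan_le (isClosed_cspan _) ?_ (h1 (mem_univ v))
    intro γ hγ
    have hpos : 0 < ‖γ‖ + 1 := by positivity
    have h3 : (‖γ‖ + 1)⁻¹ • γ ∈ cspan (range fun γ : Γ => (‖(γ : Y)‖ + 1)⁻¹ • (γ : Y)) :=
      subset_cspan _ ⟨⟨γ, hγ⟩, rfl⟩
    have h4 := Submodule.smul_mem _ (‖γ‖ + 1) h3
    rwa [smul_smul, mul_inv_cancel₀ hpos.ne', one_smul] at h4
  · refine ((h2 f).preimage (f := ((↑) : Γ → Y)) Subtype.val_injective).mono ?_
    intro γ hγ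
    refine ⟨γ.2, fun h => hγ ?_⟩
    simp [h]

end Pool.Agent.Lib.MP_1b39b5_an
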