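import Mathlib
import Pool.Agent.Lib.MP_1b39b5_an.Basis

set_option autoImplicit false

open Set Filter Topology

namespace Pool.Agent.Lib.MP_1b39b5_an

/-- A family admits a decomposition at scale `ε` if it splits into countably many pieces on each
of which every functional of norm at most one is smaller than `ε` off a finite set. -/
def Dec {E : Type} [NormedAddCommGroup E] [NormedSpace ℝ E] {Γ : Type} (x : Γ → E) (ε : ℝ) :
    Prop :=
  ∃ ν : Γ → ℕ, ∀ g : StrongDual ℝ E, ‖g‖ ≤ 1 → ∀ n, {γ | ν γ = n ∧ ε ≤ |g (x γ)|}.Finite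

variable {W : Type} [NormedAddCommGroup W] [NormedSpace ℝ W]

theorem dec_of_wcg {C : ℕ → Set W} (hC : ∀ n, WK (C n))
    (hd : ∀ w : W, ∀ δ : ℝ, 0 < δ → ∃ n, ∃ k ∈ C n, ‖w - k‖ ≤ δ) {Γ : Type} (x : Γ → W)
    (hx : ∀ g : StrongDual ℝ W, {γ | g (x γ) ≠ 0}.Countable) {ε : ℝ} (hε : 0 < ε) : Dec x ε := by
  classical
  have hδ : 0 < ε / 3 := by positivity
  choose m k hk1 hk2 using fun γ => hd (x γ) (ε / 3) hδ
  have hD : ∀ F : Finset Γ, ∃ D : Set W, D.Countable ∧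
      (Submodule.span ℝ (k '' F) : Set W) ⊆ closure D := fun F =>
    ((F.finite_toSet.image k).isSeparable).span
  choose D hD1 hD2 using hD
  obtain ⟨ν, hν⟩ := exists_free_decomposition (fun F => ⋃ d ∈ D F, {γ | nf d (x γ) ≠ 0})
    (fun F => (hD1 F).biUnion fun d _ => hx _)
  refine ⟨fun γ => Nat.pair (ν γ) (m γ), fun g hg n => ?_⟩
  by_contra hinf
  have hinf' : (cofinite ⊓ 𝓟 {γ | Nat.pair (ν γ) (m γ) = n ∧ ε ≤ |g (x γ)|}).NeBot :=
    (Set.not_finite.1 hinf).cofinite_inf_principal_neBot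
  let U := Ultrafilter.of (cofinite ⊓ 𝓟 {γ | Nat.pair (ν γ) (m γ) = n ∧ ε ≤ |g (x γ)|})
  have hU : (U : Filter Γ) ≤ cofinite ⊓ 𝓟 {γ | Nat.pair (ν γ) (m γ) = n ∧ ε ≤ |g (x γ)|} :=
    Ultrafilter.of_le _
  have hU1 : ∀ a, ({a} : Set Γ) ∉ U := fun a ha =>
    (Ultrafilter.compl_mem_iff_notMem.1
      ((hU.trans inf_le_left) (finite_singleton a).compl_mem_cofinite)) ha
  have hU2 : {γ | Nat.pair (ν γ) (m γ) = n ∧ ε ≤ |g (x γ)|} ∈ U :=
    le_principal_iff.1 (hU.trans inf_le_right)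
  obtain ⟨V, hV, hV'⟩ := hν U hU1 n.unpair.1 (by
    filter_upwards [hU2] with γ hγ
    rw [← hγ.1, Nat.unpair_pair])
  obtain ⟨k0, -, hk0⟩ := hC n.unpair.2 Γ U k (by
    filter_upwards [hU2] with γ hγ
    rw [← hγ.1, Nat.unpair_pair]
    exact hk1 γ)
  have hlow : 2 * (ε / 3) ≤ |g k0| := by
    refine ge_of_tendsto (hk0 g).abs ?_
    filter_upwards [hU2] with γ hγ
    have h1 : |g (x γ - k γ)| ≤ ε / 3 := (abs_le_of_norm_le_one hg _).trans (hk2 γ)
    rw [map_sub] at h1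
    have h2 := abs_sub_abs_le_abs_sub (g (x γ)) (g (k γ))
    linarith [hγ.2]
  have hmem : k0 ∈ cspan (k '' V) :=
    hk0.mem_of_convex (cspan _).convex (isClosed_cspan _)
      (by filter_upwards [hV] with γ hγ using subset_cspan _ (mem_image_of_mem k hγ))
  have hη : 0 < ε / 15 := by positivity
  obtain ⟨e, he1, he2⟩ := Metric.mem_closure_iff.1 hmem (ε / 15) hη
  obtain ⟨a0, ha0⟩ := U.nonempty_of_mem hV
  obtain ⟨F, hF1, hF2, hF3⟩ : ∃ F : Finset Γ, F.Nonempty ∧ (F : Set Γ) ⊆ V ∧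
      e ∈ Submodule.span ℝ (k '' F) := by
    obtain ⟨T, hT1, hT2⟩ := Submodule.mem_span_finite_of_mem_span he1
    obtain ⟨F, hF1, hF2⟩ := Finset.subset_set_image_iff.1 hT1
    refine ⟨insert a0 F, by simp, by simp [insert_subset_iff, ha0, hF1], ?_⟩
    refine Submodule.span_mono ?_ hT2
    rw [← hF2, Finset.coe_image]
    exact image_mono (by simp)
  obtain ⟨d, hd1, hd2⟩ := Metric.mem_closure_iff.1 (hD2 F hF3) (ε / 15) hη
  have hc := Ultrafilter.compl_mem_iff_notMem.2 (hV' F hF1 hF2)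
  have hup : |nf d k0| ≤ ε / 3 := by
    refine le_of_tendsto (hk0 (nf d)).abs ?_
    filter_upwards [hc] with γ hγ
    have h0 : nf d (x γ) = 0 := by
      by_contra h
      exact hγ (mem_iUnion₂.2 ⟨d, hd1, h⟩)
    have h1 : |nf d (x γ - k γ)| ≤ ε / 3 := (nf_abs_le _ _).trans (hk2 γ)
    rwa [map_sub, h0, zero_sub, abs_neg] at h1
  have hdist : ‖k0 - d‖ < 2 * (ε / 15) := by
    have := dist_triangle k0 e d
    rw [dist_eq_norm] at this
    linarith
  have h3 : ‖d‖ ≤ ε / 3 + ‖k0 - d‖ := by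
    have h4 := nf_abs_le d (k0 - d)
    rw [map_sub, nf_self] at h4
    have h5 := abs_le.1 h4
    have h6 := abs_le.1 hup
    linarith
  have h7 : ‖k0‖ ≤ ‖k0 - d‖ + ‖d‖ := by simpa using norm_add_le (k0 - d) d
  have h8 := abs_le_of_norm_le_one hg k0
  linarith

variable {Y : Type} [NormedAddCommGroup Y] [NormedSpace ℝ Y]

theorem exists_finite_control (H : Y → W)
    (hi : ∀ l : Filter Y, WConv l H 0 → WConv l id 0) (f : StrongDual ℝ Y) :
    ∃ k : ℕ, ∃ G : Set (StrongDual ℝ W), G.Finite ∧ (∀ g ∈ G, ‖g‖ ≤ 1) ∧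
      ∀ y, (∀ g ∈ G, |g (H y)| < 1 / ((k : ℝ) + 1)) → |f y| ≤ 1 := by
  let l : Filter Y := ⨅ g : {g : StrongDual ℝ W // ‖g‖ ≤ 1}, comap (fun y => g.1 (H y)) (𝓝 0)
  have hl : WConv l H 0 := by
    intro g
    have hpos : 0 < ‖g‖ + 1 := by positivity
    have hg : ‖(‖g‖ + 1)⁻¹ • g‖ ≤ 1 := by
      rw [norm_smul, norm_inv, Real.norm_of_nonneg hpos.le, inv_mul_le_iff₀ hpos]
      linarith
    have h1 : Tendsto (fun y => ((‖g‖ + 1)⁻¹ • g) (H y)) l (𝓝 0) :=
      tendsto_iff_comap.2 (iInf_le _ (⟨_, hg⟩ : {g : StrongDual ℝ W // ‖g‖ ≤ 1}))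
    have h2 := h1.const_mul (‖g‖ + 1)
    simp only [smul_apply, smul_eq_mul, mul_zero, ← mul_assoc,
      mul_inv_cancel₀ hpos.ne', one_mul] at h2
    simpa using h2
  have h3 : {y | |f y| ≤ 1} ∈ l := by
    have h4 := (hi l hl f).abs
    simp only [id, map_zero, abs_zero] at h4
    exact h4.eventually (ge_mem_nhds one_pos)
  obtain ⟨I, hI, V, hV1, hV2⟩ := mem_iInf.1 h3
  have h5 : ∀ i : I, ∀ᶠ k : ℕ in atTop, ∀ y, |i.1.1 (H y)| < 1 / ((k : ℝ) + 1) → y ∈ V i := by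
    intro i
    obtain ⟨t, ht1, ht2⟩ := mem_comap.1 (hV1 i)
    obtain ⟨η, hη, hη'⟩ := Metric.mem_nhds_iff.1 ht1
    filter_upwards [tendsto_one_div_add_atTop_nhds_zero_nat.eventually (gt_mem_nhds hη)]
      with k hk y hy
    refine ht2 (hη' ?_)
    rw [Metric.mem_ball, Real.dist_eq, sub_zero]
    exact hy.trans hk
  have := hI.to_subtype
  obtain ⟨k, hk⟩ := (eventually_all.2 h5).exists
  refine ⟨k, Subtype.val '' I, hI.image _, ?_, fun y hy => ?_⟩
  · rintro _ ⟨g, -, rfl⟩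
    exact g.2
  · have : y ∈ ⋂ i, V i := mem_iInter.2 fun i => hk i y (hy _ ⟨i.1, i.2, rfl⟩)
    rw [← hV2] at this
    exact this

theorem countable_support_comp (H : Y → W)
    (hc : ∀ l : Filter Y, WConv l id 0 → WConv l H 0) {Γ : Type} (y : Γ → Y)
    (hy : ∀ f : StrongDual ℝ Y, {γ | f (y γ) ≠ 0}.Countable) (g : StrongDual ℝ W) :
    {γ | g (H (y γ)) ≠ 0}.Countable := by
  have h1 : WConv (map y cocountable) id 0 := by
    intro f
    rw [map_zero, tendsto_map'_iff]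
    refine tendsto_const_nhds.congr' ?_
    have : {γ | f (y γ) ≠ 0}ᶜ ∈ cocountable := mem_cocountable.2 (by rw [compl_compl]; exact hy f)
    filter_upwards [this] with γ hγ
    exact (not_not.1 hγ).symm
  have h2 := hc _ h1 g
  rw [map_zero, tendsto_map'_iff] at h2
  have h3 : ∀ j : ℕ, {γ | 1 / ((j : ℝ) + 1) ≤ |g (H (y γ))|}.Countable := by
    intro j
    have h4 : ∀ᶠ γ in cocountable, |g (H (y γ))| < 1 / ((j : ℝ) + 1) := by
      have h5 := h2.abs
      rw [abs_zero] at h5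
      exact h5.eventually (gt_mem_nhds (by positivity))
    have h6 := mem_cocountable.1 h4
    refine h6.mono fun γ hγ => ?_
    have hγ' : 1 / ((j : ℝ) + 1) ≤ |g (H (y γ))| := hγ
    exact not_lt.2 hγ'
  refine (countable_iUnion h3).mono fun γ hγ => ?_
  obtain ⟨j, hj⟩ := exists_nat_one_div_lt (abs_pos.2 hγ)
  exact mem_iUnion.2 ⟨j, hj.le⟩

/-- The Baire category and scaling argument. -/
theorem dec_of_embedding {C : ℕ → Set W} (hC : ∀ n, WK (C n))
    (hd : ∀ w : W, ∀ δ : ℝ, 0 < δ → ∃ n, ∃ k ∈ C n, ‖w - k‖ ≤ δ) (H : Y → W)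
    (hc : ∀ l : Filter Y, WConv l id 0 → WConv l H 0)
    (hi : ∀ l : Filter Y, WConv l H 0 → WConv l id 0) {Γ : Type} (y : Γ → Y)
    (hy1 : ∀ γ, ‖y γ‖ ≤ 1) (hy : ∀ f : StrongDual ℝ Y, {γ | f (y γ) ≠ 0}.Countable)
    {ε : ℝ} (hε : 0 < ε) : Dec y ε := by
  let Fk : ℕ → Set (StrongDual ℝ Y) := fun k =>
    {f | ∃ G : Set (StrongDual ℝ W), G.Finite ∧ (∀ g ∈ G, ‖g‖ ≤ 1) ∧
      ∀ y, (∀ g ∈ G, |g (H y)| < 1 / ((k : ℝ) + 1)) → |f y| ≤ 1}
  obtain ⟨k, f0, hf0⟩ := nonempty_interior_of_iUnion_of_closed (f := fun k => closure (Fk k))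
    (fun k => isClosed_closure) (by
      refine eq_univ_of_forall fun f => ?_
      obtain ⟨k, hk⟩ := exists_finite_control H hi f
      exact mem_iUnion.2 ⟨k, subset_closure hk⟩)
  obtain ⟨r, hr, hr'⟩ := Metric.mem_nhds_iff.1 (mem_interior_iff_mem_nhds.1 hf0)
  set R : ℝ := 5 / (r * ε) with hR
  have hRpos : 0 < R := by positivity
  obtain ⟨ν, hν⟩ := dec_of_wcg hC hd (fun γ => H (R • y γ))
    (countable_support_comp H hc (fun γ => R • y γ) (fun f => (hy f).mono (by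
      intro γ hγ h
      exact hγ (by simp [h])))) (ε := 1 / ((k : ℝ) + 1)) (by positivity)
  have key : ∀ f ∈ closure (Fk k), ∀ n, {γ | ν γ = n ∧ 2 < |f (R • y γ)|}.Finite := by
    intro f hf n
    obtain ⟨f', ⟨G, hG1, hG2, hG3⟩, hf'⟩ := Metric.mem_closure_iff.1 hf (1 / R) (by positivity)
    refine (hG1.biUnion fun g hg => hν g (hG2 g hg) n).subset ?_
    rintro γ ⟨hγ1, hγ2⟩
    by_contra hcon
    have h1 : |f' (R • y γ)| ≤ 1 := by
      refine hG3 _ fun g hg => ?_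
      by_contra h
      exact hcon (mem_iUnion₂.2 ⟨g, hg, hγ1, not_lt.1 h⟩)
    have h2 : |(f - f') (R • y γ)| ≤ 1 := by
      have h3 := (f - f').le_opNorm (R • y γ)
      rw [dist_eq_norm] at hf'
      rw [Real.norm_eq_abs, norm_smul, Real.norm_of_nonneg hRpos.le] at h3
      have h4 : R * ‖y γ‖ ≤ R := by nlinarith [hy1 γ]
      calc _ ≤ ‖f - f'‖ * (R * ‖y γ‖) := h3
        _ ≤ (1 / R) * R := mul_le_mul hf'.le h4 (by positivity) (by positivity)
        _ = 1 := by field_simp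
    rw [sub_apply] at h2
    have h5 := abs_sub_abs_le_abs_sub (f (R • y γ)) (f' (R • y γ))
    linarith
  refine ⟨ν, fun f hf n => ?_⟩
  have hn : ‖(r / 2) • f‖ < r := by
    rw [norm_smul, Real.norm_of_nonneg (by positivity)]
    nlinarith [norm_nonneg f]
  have hp : f0 + (r / 2) • f ∈ closure (Fk k) := hr' (by
    rw [Metric.mem_ball, dist_eq_norm, add_sub_cancel_left]; exact hn)
  have hm : f0 - (r / 2) • f ∈ closure (Fk k) := hr' (by
    rw [Metric.mem_ball, dist_eq_norm, sub_sub_cancel_left, norm_neg]; exact hn)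
  refine ((key _ hp n).union (key _ hm n)).subset ?_
  rintro γ ⟨hγ1, hγ2⟩
  by_contra hcon
  simp only [mem_union, mem_ofPred_eq, hγ1, true_and, not_or, not_lt,
    add_apply, sub_apply, smul_apply,
    map_smul, smul_eq_mul] at hcon
  obtain ⟨h1, h2⟩ := hcon
  have h3 : |r * R * f (y γ)| ≤ 4 := by
    have h4 := abs_le.1 h1
    have h5 := abs_le.1 h2
    rw [abs_le]
    constructor <;> nlinarith
  rw [abs_mul, abs_of_pos (mul_pos hr hRpos)] at h3
  have h6 : r * R * ε = 5 := by rw [hR]; field_simp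
  have h7 : r * R * ε ≤ r * R * |f (y γ)| := mul_le_mul_of_nonneg_left hγ2 (by positivity)
  linarith

end Pool.Agent.Lib.MP_1b39b5_an
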