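import Mathlib
import Pool.Agent.Lib.MP_1b39b5_an.Decomp

set_option autoImplicit false

open Set Filter Topology MeasureTheory
open scoped CompactlySupported

namespace Pool.Agent.Lib.MP_1b39b5_an

/-- A functional on a space of odd continuous functions is given by a finite positive measure. -/
theorem exists_measure_of_odd {K : Type} [TopologicalSpace K] [CompactSpace K] [T2Space K]
    [MeasurableSpace K] [BorelSpace K] (τ : K → K) (Z : Submodule ℝ C(K, ℝ))
    (hZ : ∀ ψ ∈ Z, ∀ x, ψ (τ x) = -ψ x) (μ : Z →ₗ[ℝ] ℝ) (B : ℝ) (hB : 0 ≤ B)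
    (hμ : ∀ ψ : Z, μ ψ ≤ B * ‖(ψ : C(K, ℝ))‖) :
    ∃ m : Measure K, IsFiniteMeasure m ∧ ∀ ψ : Z, μ ψ = ∫ x, (ψ : C(K, ℝ)) x ∂m := by
  let N : C(K, ℝ) → ℝ := fun ψ => B * ‖ψ ⊔ 0‖
  have hpos : ∀ (ψ : C(K, ℝ)) (x : K), ψ x ≤ ‖ψ ⊔ 0‖ := by
    intro ψ x
    have h1 := (ψ ⊔ 0).apply_le_norm x
    simp only [ContinuousMap.sup_apply, ContinuousMap.zero_apply] at h1
    exact (le_max_left _ _).trans h1
  have hle : ∀ (ψ : C(K, ℝ)) (c : ℝ), 0 ≤ c → (∀ x, ψ x ≤ c) → ‖ψ ⊔ 0‖ ≤ c := by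
    intro ψ c hc h
    refine (ContinuousMap.norm_le _ hc).2 fun x => ?_
    simp only [ContinuousMap.sup_apply, ContinuousMap.zero_apply]
    rw [Real.norm_of_nonneg (le_max_right _ _)]
    exact max_le (h x) hc
  obtain ⟨g, hg1, hg2⟩ := exists_extension_of_le_sublinear (⟨Z, μ⟩ : C(K, ℝ) →ₗ.[ℝ] ℝ) N
    (by
      intro c hc ψ
      have : (c • ψ) ⊔ 0 = c • (ψ ⊔ 0) := by
        ext x
        simp only [ContinuousMap.sup_apply, ContinuousMap.zero_apply, ContinuousMap.smul_apply,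
          smul_eq_mul]
        rw [mul_max_of_nonneg _ _ hc.le, mul_zero]
      simp only [N, this, norm_smul, Real.norm_of_nonneg hc.le]
      ring)
    (by
      intro ψ χ
      simp only [N]
      rw [← mul_add]
      refine mul_le_mul_of_nonneg_left ?_ hB
      exact hle _ _ (by positivity) fun x => add_le_add (hpos ψ x) (hpos χ x))
    (by
      intro ψ
      have h1 : ‖(ψ : C(K, ℝ))‖ ≤ ‖(ψ : C(K, ℝ)) ⊔ 0‖ := by
        refine (ContinuousMap.norm_le _ (norm_nonneg _)).2 fun x => ?_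
        rw [Real.norm_eq_abs, abs_le]
        have h2 := hpos ψ (τ x)
        rw [hZ _ ψ.2 x] at h2
        exact ⟨by linarith, hpos ψ x⟩
      exact (hμ ψ).trans (mul_le_mul_of_nonneg_left h1 hB))
  let Λ : C_c(K, ℝ) →ₚ[ℝ] ℝ :=
    { toFun := fun ψ => g ψ.toContinuousMap
      map_add' := fun ψ χ => by rw [← map_add]; rfl
      map_smul' := fun c ψ => by rw [RingHom.id_apply, ← map_smul]; rfl
      monotone' := fun ψ χ h => by
        have h1 := hg2 (ψ.toContinuousMap - χ.toContinuousMap)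
        have h2 : ‖(ψ.toContinuousMap - χ.toContinuousMap) ⊔ 0‖ ≤ 0 :=
          hle _ _ le_rfl fun x => sub_nonpos.2 (h x)
        have h3 : N (ψ.toContinuousMap - χ.toContinuousMap) ≤ 0 :=
          mul_nonpos_of_nonneg_of_nonpos hB h2
        rw [map_sub] at h1
        exact sub_nonpos.1 (h1.trans h3) }
  refine ⟨RealRMK.rieszMeasure Λ, inferInstance, fun ψ => ?_⟩
  let ψ' : C_c(K, ℝ) := ⟨ψ, HasCompactSupport.of_compactSpace _⟩
  have h1 := RealRMK.integral_rieszMeasure Λ ψ'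
  have h2 : Λ ψ' = μ ψ := hg1 ψ
  rw [← h2, ← h1]
  rfl

/-- A bounded point-finite family of odd continuous functions is weakly null. -/
theorem finite_of_point_finite {K : Type} [TopologicalSpace K] [CompactSpace K] [T2Space K]
    (τ : K → K) (Z : Submodule ℝ C(K, ℝ))
    (hZ : ∀ ψ ∈ Z, ∀ x, ψ (τ x) = -ψ x) (μ : Z →ₗ[ℝ] ℝ) (B : ℝ) (hB : 0 ≤ B)
    (hμB : ∀ ψ : Z, μ ψ ≤ B * ‖(ψ : C(K, ℝ))‖) {ι : Type} (φ : ι → Z) (J : Set ι)
    (hφ : ∀ i x, |(φ i : C(K, ℝ)) x| ≤ 1) (hfin : ∀ x, {i ∈ J | (φ i : C(K, ℝ)) x ≠ 0}.Finite)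
    {η : ℝ} (hη : 0 < η) : {i ∈ J | η ≤ |μ (φ i)|}.Finite := by
  borelize K
  obtain ⟨m, hm, hμ⟩ := exists_measure_of_odd τ Z hZ μ B hB hμB
  by_contra hinf
  let s := (Set.not_finite.1 hinf).natEmbedding
  have h1 : Tendsto (fun j => ∫ x, (φ (s j) : C(K, ℝ)) x ∂m) atTop (𝓝 (∫ _, (0 : ℝ) ∂m)) := by
    refine tendsto_integral_of_dominated_convergence (fun _ => 1)
      (fun j => (φ (s j) : C(K, ℝ)).continuous.aestronglyMeasurable) (integrable_const _)
      (fun j => Eventually.of_forall fun x => hφ _ x) (Eventually.of_forall fun x => ?_)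
    refine tendsto_const_nhds.congr' ?_
    have h2 : {j | (φ (s j) : C(K, ℝ)) x ≠ 0}.Finite := by
      refine ((hfin x).preimage (f := fun j => (s j : ι))
        (Subtype.val_injective.comp s.injective).injOn).subset ?_
      intro j hj
      exact ⟨(s j).2.1, hj⟩
    have h3 := h2.compl_mem_cofinite
    rw [Nat.cofinite_eq_atTop] at h3
    filter_upwards [h3] with j hj
    exact (not_not.1 hj).symm
  rw [integral_zero] at h1
  have h4 := h1.abs
  rw [abs_zero] at h4
  obtain ⟨j, hj⟩ := (h4.eventually (gt_mem_nhds hη)).exists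
  rw [← hμ] at hj
  exact absurd (s j).2.2 (not_le.2 hj)

/-- Soft thresholding. -/
noncomputable def soft (ε t : ℝ) : ℝ := max (t - ε) 0 - max (-t - ε) 0

theorem continuous_soft (ε : ℝ) : Continuous (soft ε) := by
  unfold soft
  fun_prop

theorem soft_neg (ε t : ℝ) : soft ε (-t) = -soft ε t := by
  simp [soft]

theorem soft_eq_zero {ε t : ℝ} (h : |t| < ε) : soft ε t = 0 := by
  have := abs_lt.1 h
  rw [soft, max_eq_right (by linarith), max_eq_right (by linarith), sub_zero]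

theorem abs_sub_soft {ε : ℝ} (hε : 0 ≤ ε) (t : ℝ) : |t - soft ε t| ≤ ε := by
  rw [soft, abs_le]
  rcases le_total (t - ε) 0 with h1 | h1 <;> rcases le_total (-t - ε) 0 with h2 | h2 <;>
    simp only [max_eq_right, max_eq_left, h1, h2] <;> constructor <;> linarith

theorem abs_soft_le {ε : ℝ} (hε : 0 ≤ ε) (t : ℝ) : |soft ε t| ≤ |t| := by
  have h3 := le_abs_self t
  have h4 := neg_abs_le t
  have h5 := abs_nonneg t
  rw [soft, abs_le]
  rcases le_total (t - ε) 0 with h1 | h1 <;> rcases le_total (-t - ε) 0 with h2 | h2 <;>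
    simp only [max_eq_right, max_eq_left, h1, h2] <;> constructor <;> linarith

variable {Y : Type} [NormedAddCommGroup Y] [NormedSpace ℝ Y]

/-- The dual unit ball with the weak-star topology. -/
abbrev Ball (Y : Type) [NormedAddCommGroup Y] [NormedSpace ℝ Y] : Type :=
  (WeakDual.toStrongDual ⁻¹' Metric.closedBall (0 : StrongDual ℝ Y) 1 : Set (WeakDual ℝ Y))

instance : CompactSpace (Ball Y) :=
  isCompact_iff_compactSpace.1 (WeakDual.isCompact_closedBall (0 : StrongDual ℝ Y) 1)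

theorem ball_norm (f : Ball Y) : ‖WeakDual.toStrongDual f.1‖ ≤ 1 := by
  exact mem_closedBall_zero_iff.1 f.2

/-- The antipodal map of the dual ball. -/
noncomputable def bneg (f : Ball Y) : Ball Y := ⟨-f.1, by
  have := ball_norm f
  simpa using this⟩

/-- Evaluation at a vector, as a continuous function on the dual ball. -/
noncomputable def ev (v : Y) : C(Ball Y, ℝ) :=
  ⟨fun f => f.1 v, (WeakDual.eval_continuous v).comp continuous_subtype_val⟩

theorem abs_ev_le (v : Y) (f : Ball Y) : |ev v f| ≤ ‖v‖ :=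
  abs_le_of_norm_le_one (ball_norm f) v

theorem ev_bneg (v : Y) (f : Ball Y) : ev v (bneg f) = -ev v f := rfl

/-- Evaluation as a bounded operator. -/
noncomputable def evL : Y →L[ℝ] C(Ball Y, ℝ) :=
  LinearMap.mkContinuous
    { toFun := ev
      map_add' := fun v w => by ext f; exact map_add f.1 v w
      map_smul' := fun c v => by ext f; exact map_smul f.1 c v } 1
    (fun v => by
      rw [one_mul]
      exact (ContinuousMap.norm_le _ (norm_nonneg _)).2 fun f => abs_ev_le v f)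

theorem norm_le_ev (v : Y) : ‖v‖ ≤ ‖ev v‖ := by
  have h := (ev v).apply_le_norm ⟨StrongDual.toWeakDual (nf v), by simpa using nf_norm v⟩
  rw [← nf_self v]
  exact h

/-- The thresholded evaluation. -/
noncomputable def sev (m : ℕ) (v : Y) : C(Ball Y, ℝ) :=
  ⟨fun f => soft (1 / ((m : ℝ) + 1)) (ev v f), (continuous_soft _).comp (ev v).continuous⟩

theorem exists_wcg_superspace {Γ : Type} (y : Γ → Y) (hy1 : ∀ γ, ‖y γ‖ ≤ 1)
    (hy2 : ∀ v, v ∈ cspan (range y)) (hdec : ∀ ε : ℝ, 0 < ε → Dec y ε) :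
    ∃ (Z : Type) (_ : NormedAddCommGroup Z) (_ : NormedSpace ℝ Z) (_ : CompleteSpace Z),
      (∃ K : Set Z, IsCompact (toWeakSpace ℝ Z '' K) ∧
        Dense (Submodule.span ℝ K : Set Z)) ∧
      ∃ T : Y →L[ℝ] Z, ∃ c : ℝ, 0 < c ∧ ∀ v : Y, c * ‖v‖ ≤ ‖T v‖ := by
  choose ν hν using fun m : ℕ => hdec (1 / ((m : ℝ) + 1)) (by positivity)
  let Z : Submodule ℝ C(Ball Y, ℝ) := cspan (range fun p : ℕ × Γ => sev p.1 (y p.2))
  have hZc : IsClosed (Z : Set C(Ball Y, ℝ)) := isClosed_cspan _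
  have hodd : ∀ ψ ∈ Z, ∀ x, ψ (bneg x) = -ψ x := by
    let O : Submodule ℝ C(Ball Y, ℝ) :=
      { carrier := {ψ | ∀ x, ψ (bneg x) = -ψ x}
        add_mem' := fun {a b} ha hb x => by
          simp only [ContinuousMap.add_apply, ha x, hb x]; ring
        zero_mem' := fun x => by simp
        smul_mem' := fun c a ha x => by
          simp only [ContinuousMap.smul_apply, ha x, smul_eq_mul]; ring }
    have hO : IsClosed (O : Set C(Ball Y, ℝ)) := by
      have : (O : Set C(Ball Y, ℝ)) = ⋂ x, {ψ | ψ (bneg x) = -ψ x} := by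
        ext ψ
        simp only [mem_iInter]
        rfl
      rw [this]
      exact isClosed_iInter fun x => isClosed_eq (by fun_prop) (by fun_prop)
    refine cspan_le (E := O) hO ?_
    rintro _ ⟨p, rfl⟩ x
    exact (congrArg (soft _) (ev_bneg _ x)).trans (soft_neg _ _)
  let φ : ℕ × Γ → Z := fun p => ⟨sev p.1 (y p.2), subset_cspan _ ⟨p, rfl⟩⟩
  have hφ : ∀ p x, |(φ p : C(Ball Y, ℝ)) x| ≤ 1 := fun p x =>
    ((abs_soft_le (by positivity) _).trans (abs_ev_le _ x)).trans (hy1 _)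
  let c : ℕ × Γ → ℝ := fun p => 1 / (((p.1 + ν p.1 p.2 : ℕ) : ℝ) + 1)
  have hcpos : ∀ p, 0 < c p := fun p => by positivity
  let u : ℕ × Γ → Z := fun p => c p • φ p
  have hnull : WConv cofinite u 0 := by
    intro μ
    rw [map_zero, Metric.tendsto_nhds]
    intro η hη
    obtain ⟨L, hL⟩ := exists_nat_one_div_lt (div_pos hη (show 0 < ‖μ‖ + 1 by positivity))
    have hfin : ∀ m n : ℕ, {p ∈ {p : ℕ × Γ | p.1 = m ∧ ν m p.2 = n} | η ≤ |μ (φ p)|}.Finite := by
      intro m n
      refine finite_of_point_finite bneg Z hodd μ.toLinearMap ‖μ‖ (norm_nonneg _)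
        (fun ψ => (le_abs_self _).trans (μ.le_opNorm ψ)) φ _ hφ (fun x => ?_) hη
      refine ((hν m (WeakDual.toStrongDual x.1) (ball_norm x) n).image
        (fun γ => (m, γ))).subset ?_
      rintro ⟨m', γ⟩ ⟨⟨rfl, h2⟩, h3⟩
      refine ⟨γ, ⟨h2, ?_⟩, rfl⟩
      by_contra h4
      exact h3 (soft_eq_zero (not_le.1 h4))
    rw [eventually_cofinite]
    refine ((finite_Iic L).biUnion fun m _ => (finite_Iic L).biUnion fun n _ => hfin m n).subset ?_
    intro p hp
    have hp' : η ≤ c p * |μ (φ p)| := by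
      have : ¬ dist (μ (c p • φ p)) 0 < η := hp
      rwa [not_lt, Real.dist_eq, sub_zero, map_smul, smul_eq_mul, abs_mul,
        abs_of_pos (hcpos p)] at this
    have hn1 : ‖φ p‖ ≤ 1 := (ContinuousMap.norm_le _ zero_le_one).2 (hφ p)
    have hμ : |μ (φ p)| ≤ ‖μ‖ := (μ.le_opNorm _).trans (by nlinarith [norm_nonneg μ])
    have hc1 : c p ≤ 1 := by
      simp only [c]
      rw [div_le_one (by positivity)]
      have : (0 : ℝ) ≤ ((p.1 + ν p.1 p.2 : ℕ) : ℝ) := by positivity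
      linarith
    have hL' : p.1 + ν p.1 p.2 ≤ L := by
      by_contra h
      have h1 : c p ≤ 1 / ((L : ℝ) + 1) := Nat.one_div_le_one_div (not_le.1 h).le
      have h2 : c p < η / (‖μ‖ + 1) := h1.trans_lt hL
      rw [lt_div_iff₀ (by positivity)] at h2
      nlinarith [hcpos p]
    refine mem_iUnion₂.2 ⟨p.1, mem_Iic.2 (by omega), mem_iUnion₂.2
      ⟨ν p.1 p.2, mem_Iic.2 (by omega), ⟨rfl, rfl⟩, ?_⟩⟩
    nlinarith [abs_nonneg (μ (φ p))]
  have hev : ∀ v, evL v ∈ Z := by
    intro v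
    refine cspan_le (E := Z.comap (evL : Y →L[ℝ] C(Ball Y, ℝ)).toLinearMap)
      (hZc.preimage evL.continuous) ?_ (hy2 v)
    rintro _ ⟨γ, rfl⟩
    have h1 : Tendsto (fun m : ℕ => sev m (y γ)) atTop (𝓝 (ev (y γ))) := by
      rw [tendsto_iff_dist_tendsto_zero]
      refine squeeze_zero (fun _ => dist_nonneg) (fun m => ?_)
        tendsto_one_div_add_atTop_nhds_zero_nat
      rw [dist_comm]
      exact (ContinuousMap.dist_le (by positivity)).2 fun x => abs_sub_soft (by positivity) _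
    exact hZc.mem_of_tendsto h1 (Eventually.of_forall fun m => (φ (m, γ)).2)
  refine ⟨Z, inferInstance, inferInstance, hZc.completeSpace_coe, ⟨insert 0 (range u), ?_, ?_⟩,
    evL.codRestrict Z hev, 1, one_pos, fun v => ?_⟩
  · have h1 := ((tendsto_weak_iff _ _ _).2 hnull).isCompact_insert_range_of_cofinite
    rw [image_insert_eq, ← range_comp]
    exact h1
  · rw [Subtype.dense_iff]
    have h1 : Submodule.span ℝ (range fun p : ℕ × Γ => sev p.1 (y p.2)) ≤
        (Submodule.span ℝ (insert 0 (range u))).map Z.subtype := by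
      rw [Submodule.span_le]
      rintro _ ⟨p, rfl⟩
      refine ⟨(c p)⁻¹ • u p, Submodule.smul_mem _ _
        (Submodule.subset_span (mem_insert_of_mem _ (mem_range_self p))), ?_⟩
      simp only [u, smul_smul, inv_mul_cancel₀ (hcpos p).ne', one_smul]
      rfl
    exact closure_mono h1
  · rw [one_mul]
    exact norm_le_ev v

end Pool.Agent.Lib.MP_1b39b5_an
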