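import Mathlib
import Pool.Agent.Lib.MP_1b39b5_an.Super

set_option autoImplicit false

open Set Filter Topology

namespace Pool.Agent.Lib.MP_1b39b5_an

/-- Abstract form of the main theorem. -/
theorem superspace_of_map {W Y : Type} [NormedAddCommGroup W] [NormedSpace ℝ W] [CompleteSpace W]
    [NormedAddCommGroup Y] [NormedSpace ℝ Y] {K : Set W}
    (hK : IsCompact (toWeakSpace ℝ W '' K)) (hd : Dense (Submodule.span ℝ K : Set W))
    (H : Y → W) (hc : ∀ l : Filter Y, WConv l id 0 → WConv l H 0)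
    (hi : ∀ l : Filter Y, WConv l H 0 → WConv l id 0)
    (hp : ∀ (U : Ultrafilter Y) (w : W), WConv (U : Filter Y) H w → ∃ y, WConv (U : Filter Y) id y) :
    ∃ (Z : Type) (_ : NormedAddCommGroup Z) (_ : NormedSpace ℝ Z) (_ : CompleteSpace Z),
      (∃ K : Set Z, IsCompact (toWeakSpace ℝ Z '' K) ∧
        Dense (Submodule.span ℝ K : Set Z)) ∧
      ∃ T : Y →L[ℝ] Z, ∃ c : ℝ, 0 < c ∧ ∀ v : Y, c * ‖v‖ ≤ ‖T v‖ := by
  obtain ⟨C, hC1, hC2⟩ := exists_seq_of_wcg hK hd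
  have hS : KA (fun (m n : ℕ) => {y : Y | ∃ k ∈ C n, ‖H y - k‖ ≤ 1 / ((m : ℝ) + 1)}) := by
    refine ⟨fun y m => hC2 (H y) _ (by positivity), fun ι U u hu => ?_⟩
    obtain ⟨w, hw⟩ := wconv_of_approx hC1 U (fun i => H (u i)) hu
    obtain ⟨y, hy⟩ := hp (U.map u) w hw
    exact ⟨y, hy⟩
  obtain ⟨Γ, y, hy1, hy2, hy3⟩ := hS.exists_family
  exact exists_wcg_superspace y hy1 hy2 fun ε hε =>
    dec_of_embedding hC1 hC2 H hc hi y hy1 hy3 hε

variable {X W : Type} [NormedAddCommGroup X] [NormedSpace ℝ X] [NormedAddCommGroup W]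
  [NormedSpace ℝ W]

theorem WConv.map {ι : Type} {l : Filter ι} {u : ι → X} {x : X} (h : WConv l u x)
    (T : X →L[ℝ] W) : WConv l (fun i => T (u i)) (T x) := fun g => h (g.comp T)

theorem exists_factor (T : X →L[ℝ] W) {c : ℝ} (hc : 0 < c) (hT : ∀ x, c * ‖x‖ ≤ ‖T x‖)
    (f : StrongDual ℝ X) : ∃ g : StrongDual ℝ W, ∀ x, g (T x) = f x := by
  have hinj : Function.Injective T := by
    rw [injective_iff_map_eq_zero]
    intro x hx
    have := hT x
    rw [hx, norm_zero] at this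
    exact norm_le_zero_iff.1 (by nlinarith [norm_nonneg x])
  let e := LinearEquiv.ofInjective T.toLinearMap hinj
  let f0 : LinearMap.range T.toLinearMap →ₗ[ℝ] ℝ := f.toLinearMap ∘ₗ e.symm.toLinearMap
  have hf0 : ∀ z : LinearMap.range T.toLinearMap, ‖f0 z‖ ≤ ‖f‖ / c * ‖z‖ := by
    intro z
    obtain ⟨x, rfl⟩ := e.surjective z
    have h1 : f0 (e x) = f x := by simp [f0]
    have h2 : ‖e x‖ = ‖T x‖ := rfl
    rw [h1, h2]
    refine (f.le_opNorm x).trans ?_
    rw [div_mul_eq_mul_div, le_div_iff₀ hc]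
    nlinarith [hT x, norm_nonneg f]
  obtain ⟨g, hg, -⟩ := exists_extension_norm_eq (LinearMap.range T.toLinearMap)
    (f0.mkContinuous _ hf0)
  refine ⟨g, fun x => ?_⟩
  have h3 := hg (e x)
  have h4 : f0 (e x) = f x := by simp [f0]
  exact h3.trans h4

theorem WConv.of_map {ι : Type} {l : Filter ι} {u : ι → X} {x : X} (T : X →L[ℝ] W) {c : ℝ}
    (hc : 0 < c) (hT : ∀ x, c * ‖x‖ ≤ ‖T x‖) (h : WConv l (fun i => T (u i)) (T x)) :
    WConv l u x := by
  intro f
  obtain ⟨g, hg⟩ := exists_factor T hc hT f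
  simpa [hg] using h g

theorem isClosed_range_of_bound [CompleteSpace X] (T : X →L[ℝ] W) {c : ℝ} (hc : 0 < c)
    (hT : ∀ x, c * ‖x‖ ≤ ‖T x‖) : IsClosed (range T) := by
  have h : AntilipschitzWith (Real.toNNReal c⁻¹) T := by
    refine T.antilipschitz_of_bound fun x => ?_
    rw [Real.coe_toNNReal _ (inv_pos.2 hc).le, le_inv_mul_iff₀ hc]
    exact hT x
  exact h.isClosed_range T.uniformContinuous

theorem main (X Y : Type) [NormedAddCommGroup X] [NormedSpace ℝ X] [CompleteSpace X]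
    [NormedAddCommGroup Y] [NormedSpace ℝ Y]
    (h : ∃ (Z : Type) (_ : NormedAddCommGroup Z) (_ : NormedSpace ℝ Z) (_ : CompleteSpace Z),
        (∃ K : Set Z, IsCompact (toWeakSpace ℝ Z '' K) ∧
          Dense (Submodule.span ℝ K : Set Z)) ∧
        ∃ T : X →L[ℝ] Z, ∃ c : ℝ, 0 < c ∧ ∀ x : X, c * ‖x‖ ≤ ‖T x‖)
    (he : Nonempty (WeakSpace ℝ X ≃ₜ WeakSpace ℝ Y)) :
    ∃ (Z : Type) (_ : NormedAddCommGroup Z) (_ : NormedSpace ℝ Z) (_ : CompleteSpace Z),
      (∃ K : Set Z, IsCompact (toWeakSpace ℝ Z '' K) ∧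
        Dense (Submodule.span ℝ K : Set Z)) ∧
      ∃ T : Y →L[ℝ] Z, ∃ c : ℝ, 0 < c ∧ ∀ y : Y, c * ‖y‖ ≤ ‖T y‖ := by
  obtain ⟨W, _, _, _, ⟨K, hK, hd⟩, T, c, hc, hT⟩ := h
  obtain ⟨e⟩ := he
  let g : Y → X := fun y => (toWeakSpace ℝ X).symm (e.symm (toWeakSpace ℝ Y y))
  have hg : ∀ (l : Filter Y) (y : Y), WConv l id y ↔ WConv l g (g y) := by
    intro l y
    rw [← tendsto_weak_iff, ← tendsto_weak_iff]
    exact e.symm.isInducing.tendsto_nhds_iff
  have hsurj : Function.Surjective g := by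
    intro x
    refine ⟨(toWeakSpace ℝ Y).symm (e (toWeakSpace ℝ X x)), ?_⟩
    simp [g]
  refine superspace_of_map hK hd (fun y => T (g y - g 0)) (fun l hl => ?_) (fun l hl => ?_)
    (fun U w hw => ?_)
  · have h1 := (((hg l 0).1 hl).sub (wconv_const l (g 0))).map T
    simpa using h1
  · have h1 : WConv l (fun y => g y - g 0) 0 := WConv.of_map T hc hT (by simpa using hl)
    have h2 := h1.add (wconv_const l (g 0))
    exact (hg l 0).2 (by simpa using h2)
  · obtain ⟨x, rfl⟩ : w ∈ range T :=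
      hw.mem_of_convex (LinearMap.range T.toLinearMap).convex (isClosed_range_of_bound T hc hT)
        (Eventually.of_forall fun y => mem_range_self _)
    have h1 : WConv U (fun y => g y - g 0) x := WConv.of_map T hc hT hw
    have h2 := h1.add (wconv_const (U : Filter Y) (g 0))
    obtain ⟨y, hy⟩ := hsurj (x + g 0)
    exact ⟨y, (hg U y).2 (by simpa [hy] using h2)⟩

end Pool.Agent.Lib.MP_1b39b5_an
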