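import Pool.Agent.Lib.MP_1b39b5_an.Scalars

/-! Perfect maps for the weak topologies. -/

open Set Filter Topology

namespace Pool.Agent.Lib.MP_1b39b5_an

variable {W : Type} [NormedAddCommGroup W] [NormedSpace ℝ W]
  {Y : Type} [NormedAddCommGroup Y] [NormedSpace ℝ Y]

theorem perfect_control (H : Y → W)
    (hp : ∀ U : Ultrafilter Y, WConv (U : Filter Y) H 0 → ∃ y, WConv (U : Filter Y) id y)
    (f : StrongDual ℝ Y) :
    ∃ k : ℕ, ∃ G : Set (StrongDual ℝ W), G.Finite ∧ (∀ g ∈ G, ‖g‖ ≤ 1) ∧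
      ∀ y, (∀ g ∈ G, |g (H y)| < 1 / ((k : ℝ) + 1)) → |f y| ≤ k + 1 := by
  let l : Filter Y := ⨅ g : {g : StrongDual ℝ W // ‖g‖ ≤ 1}, comap (fun y => g.1 (H y)) (𝓝 0)
  have hl : WConv l H 0 := by
    intro g
    have hpos : 0 < ‖g‖ + 1 := by positivity
    have hg : ‖(‖g‖ + 1)⁻¹ • g‖ ≤ 1 := by
      rw [norm_smul, norm_inv, Real.norm_of_nonneg hpos.le, inv_mul_le_iff₀ hpos]
      linarith
    have h1 : Tendsto (fun y => ((‖g‖ + 1)⁻¹ • g) (H y)) l (𝓝 0) :=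
      tendsto_iff_comap.2 (iInf_le _ (⟨_, hg⟩ : {g : StrongDual ℝ W // ‖g‖ ≤ 1}))
    have h2 := h1.const_mul (‖g‖ + 1)
    simp only [smul_apply, smul_eq_mul, mul_zero, ← mul_assoc,
      mul_inv_cancel₀ hpos.ne', one_mul] at h2
    simpa using h2
  obtain ⟨M, h3⟩ : ∃ M : ℕ, {y | |f y| ≤ M} ∈ l := by
    by_contra h
    have hn : (l ⊓ comap (fun y => |f y|) atTop).NeBot := by
      refine inf_neBot_iff.2 fun s hs t ht => ?_
      obtain ⟨u, hu, hu'⟩ := mem_comap.1 ht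
      obtain ⟨a, ha⟩ := mem_atTop_sets.1 hu
      obtain ⟨M, hM⟩ := exists_nat_ge a
      by_contra hst
      refine h ⟨M, mem_of_superset hs fun y hy => ?_⟩
      by_contra hy'
      exact hst ⟨y, hy, hu' (ha _ (hM.trans (not_le.1 hy').le))⟩
    obtain ⟨U, hU⟩ := Ultrafilter.exists_le (l ⊓ comap (fun y => |f y|) atTop)
    obtain ⟨y, hy⟩ := hp U fun g => (hl g).mono_left (hU.trans inf_le_left)
    exact not_tendsto_atTop_of_tendsto_nhds (hy f).abs
      (tendsto_iff_comap.2 (hU.trans inf_le_right))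
  obtain ⟨I, hI, V, hV1, hV2⟩ := mem_iInf.1 h3
  have h5 : ∀ i : I, ∀ᶠ k : ℕ in atTop, ∀ y, |i.1.1 (H y)| < 1 / ((k : ℝ) + 1) → y ∈ V i := by
    intro i
    obtain ⟨t, ht1, ht2⟩ := mem_comap.1 (hV1 i)
    obtain ⟨η, hη, hη'⟩ := Metric.mem_nhds_iff.1 ht1
    filter_upwards [tendsto_one_div_add_atTop_nhds_zero_nat.eventually (gt_mem_nhds hη)]
      with k hk y hy
    refine ht2 (hη' ?_)
    rw [Metric.mem_ball, Real.dist_eq, sub_zero]
    exact hy.trans hk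
  have := hI.to_subtype
  obtain ⟨k, hk, hkM⟩ := ((eventually_all.2 h5).and (eventually_ge_atTop M)).exists
  refine ⟨k, Subtype.val '' I, hI.image _, ?_, fun y hy => ?_⟩
  · rintro _ ⟨g, -, rfl⟩
    exact g.2
  · have : y ∈ ⋂ i, V i := mem_iInter.2 fun i => hk i y (hy _ ⟨i.1, i.2, rfl⟩)
    rw [← hV2] at this
    have h6 : |f y| ≤ M := this
    have h7 : (M : ℝ) ≤ k := by exact_mod_cast hkM
    linarith

/-- The Baire category and scaling argument for perfect maps. -/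
theorem dec_of_perfect {C : ℕ → Set W} (hC : ∀ n, WK (C n))
    (hd : ∀ w : W, ∀ δ : ℝ, 0 < δ → ∃ n, ∃ k ∈ C n, ‖w - k‖ ≤ δ) (H : Y → W)
    (hc : ∀ l : Filter Y, WConv l id 0 → WConv l H 0)
    (hp : ∀ U : Ultrafilter Y, WConv (U : Filter Y) H 0 → ∃ y, WConv (U : Filter Y) id y)
    {Γ : Type} (y : Γ → Y)
    (hy1 : ∀ γ, ‖y γ‖ ≤ 1) (hy : ∀ f : StrongDual ℝ Y, {γ | f (y γ) ≠ 0}.Countable)
    {ε : ℝ} (hε : 0 < ε) : Dec y ε := by
  let Fk : ℕ → Set (StrongDual ℝ Y) := fun k =>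
    {f | ∃ G : Set (StrongDual ℝ W), G.Finite ∧ (∀ g ∈ G, ‖g‖ ≤ 1) ∧
      ∀ y, (∀ g ∈ G, |g (H y)| < 1 / ((k : ℝ) + 1)) → |f y| ≤ k + 1}
  obtain ⟨k, f0, hf0⟩ := nonempty_interior_of_iUnion_of_closed (f := fun k => closure (Fk k))
    (fun k => isClosed_closure) (by
      refine eq_univ_of_forall fun f => ?_
      obtain ⟨k, hk⟩ := perfect_control H hp f
      exact mem_iUnion.2 ⟨k, subset_closure hk⟩)
  obtain ⟨r, hr, hr'⟩ := Metric.mem_nhds_iff.1 (mem_interior_iff_mem_nhds.1 hf0)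
  set R : ℝ := (2 * k + 5) / (r * ε) with hR
  have hRpos : 0 < R := by positivity
  obtain ⟨ν, hν⟩ := dec_of_wcg hC hd (fun γ => H (R • y γ))
    (countable_support_comp H hc (fun γ => R • y γ) (fun f => (hy f).mono (by
      intro γ hγ h
      exact hγ (by simp [h])))) (ε := 1 / ((k : ℝ) + 1)) (by positivity)
  have key : ∀ f ∈ closure (Fk k), ∀ n, {γ | ν γ = n ∧ k + 2 < |f (R • y γ)|}.Finite := by
    intro f hf n
    obtain ⟨f', ⟨G, hG1, hG2, hG3⟩, hf'⟩ := Metric.mem_closure_iff.1 hf (1 / R) (by positivity)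
    refine (hG1.biUnion fun g hg => hν g (hG2 g hg) n).subset ?_
    rintro γ ⟨hγ1, hγ2⟩
    by_contra hcon
    have h1 : |f' (R • y γ)| ≤ k + 1 := by
      refine hG3 _ fun g hg => ?_
      by_contra h
      exact hcon (mem_iUnion₂.2 ⟨g, hg, hγ1, not_lt.1 h⟩)
    have h2 : |(f - f') (R • y γ)| ≤ 1 := by
      have h3 := (f - f').le_opNorm (R • y γ)
      rw [dist_eq_norm] at hf'
      rw [Real.norm_eq_abs, norm_smul, Real.norm_of_nonneg hRpos.le] at h3
      have h4 : R * ‖y γ‖ ≤ R := by nlinarith [hy1 γ]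
      calc _ ≤ ‖f - f'‖ * (R * ‖y γ‖) := h3
        _ ≤ (1 / R) * R := mul_le_mul hf'.le h4 (by positivity) (by positivity)
        _ = 1 := by field_simp
    rw [sub_apply] at h2
    have h5 := abs_sub_abs_le_abs_sub (f (R • y γ)) (f' (R • y γ))
    linarith
  refine ⟨ν, fun f hf n => ?_⟩
  have hn : ‖(r / 2) • f‖ < r := by
    rw [norm_smul, Real.norm_of_nonneg (by positivity)]
    nlinarith [norm_nonneg f]
  have hp : f0 + (r / 2) • f ∈ closure (Fk k) := hr' (by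
    rw [Metric.mem_ball, dist_eq_norm, add_sub_cancel_left]; exact hn)
  have hm : f0 - (r / 2) • f ∈ closure (Fk k) := hr' (by
    rw [Metric.mem_ball, dist_eq_norm, sub_sub_cancel_left, norm_neg]; exact hn)
  refine ((key _ hp n).union (key _ hm n)).subset ?_
  rintro γ ⟨hγ1, hγ2⟩
  by_contra hcon
  simp only [mem_union, mem_ofPred_eq, hγ1, true_and, not_or, not_lt,
    add_apply, sub_apply, smul_apply,
    map_smul, smul_eq_mul] at hcon
  obtain ⟨h1, h2⟩ := hcon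
  have h3 : |r * R * f (y γ)| ≤ 2 * k + 4 := by
    have h4 := abs_le.1 h1
    have h5 := abs_le.1 h2
    rw [abs_le]
    constructor <;> nlinarith
  rw [abs_mul, abs_of_pos (mul_pos hr hRpos)] at h3
  have h6 : r * R * ε = 2 * k + 5 := by rw [hR]; field_simp
  have h7 : r * R * ε ≤ r * R * |f (y γ)| := mul_le_mul_of_nonneg_left hγ2 (by positivity)
  linarith

theorem superspace_of_perfect [CompleteSpace W] {K : Set W}
    (hK : IsCompact (toWeakSpace ℝ W '' K)) (hd : Dense (Submodule.span ℝ K : Set W))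
    (h : WeakSpace ℝ Y → WeakSpace ℝ W) (hh : IsProperMap h) :
    ∃ (Z : Type) (_ : NormedAddCommGroup Z) (_ : NormedSpace ℝ Z) (_ : CompleteSpace Z),
      (∃ K : Set Z, IsCompact (toWeakSpace ℝ Z '' K) ∧
        Dense (Submodule.span ℝ K : Set Z)) ∧
      ∃ T : Y →L[ℝ] Z, ∃ c : ℝ, 0 < c ∧ ∀ v : Y, c * ‖v‖ ≤ ‖T v‖ := by
  let g : Y → W := fun y => (toWeakSpace ℝ W).symm (h (toWeakSpace ℝ Y y))
  have hc : ∀ l : Filter Y, WConv l id 0 → WConv l (fun y => g y - g 0) 0 := fun l hl => by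
    have h1 : WConv l g (g 0) := (tendsto_weak_iff l g (g 0)).1
      ((hh.continuous.tendsto _).comp ((tendsto_weak_iff l id 0).2 hl))
    simpa using h1.sub (wconv_const l (g 0))
  have hp : ∀ (U : Ultrafilter Y) (w : W), WConv (U : Filter Y) (fun y => g y - g 0) w →
      ∃ y, WConv (U : Filter Y) id y := fun U w hw => by
    have h1 : WConv (U : Filter Y) g (w + g 0) := by
      simpa using hw.add (wconv_const (U : Filter Y) (g 0))
    obtain ⟨y, -, hy⟩ := hh.ultrafilter_le_nhds_of_tendsto (𝒰 := U.map (toWeakSpace ℝ Y))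
      ((tendsto_weak_iff _ g _).2 h1)
    exact ⟨(toWeakSpace ℝ Y).symm y, (tendsto_weak_iff _ id _).1 hy⟩
  obtain ⟨C, hC1, hC2⟩ := exists_seq_of_wcg hK hd
  have hS : KA (fun (m n : ℕ) =>
      {y : Y | ∃ k ∈ C n, ‖g y - g 0 - k‖ ≤ 1 / ((m : ℝ) + 1)}) := by
    refine ⟨fun y m => hC2 (g y - g 0) _ (by positivity), fun ι U u hu => ?_⟩
    obtain ⟨w, hw⟩ := wconv_of_approx hC1 U (fun i => g (u i) - g 0) hu
    obtain ⟨y, hy⟩ := hp (U.map u) w hw
    exact ⟨y, hy⟩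
  obtain ⟨Γ, y, hy1, hy2, hy3⟩ := hS.exists_family
  exact exists_wcg_superspace y hy1 hy2 fun ε hε =>
    dec_of_perfect hC1 hC2 _ hc (fun U => hp U 0) y hy1 hy3 hε

/-- A linear isometry with closed range is a closed embedding for the weak topologies. -/
theorem proper_of_isometry {X : Type} [NormedAddCommGroup X] [NormedSpace ℝ X] [CompleteSpace X]
    (T : X →L[ℝ] W) (hT : ∀ x, 1 * ‖x‖ ≤ ‖T x‖) : IsProperMap (WeakSpace.map T) := by
  refine isProperMap_iff_ultrafilter.2 ⟨(WeakSpace.map T).continuous, fun U w hw => ?_⟩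
  have h1 : WConv (U : Filter (WeakSpace ℝ X)) (fun x => T ((toWeakSpace ℝ X).symm x))
      ((toWeakSpace ℝ W).symm w) := (tendsto_weak_iff _ _ _).1 hw
  obtain ⟨x, hx⟩ : (toWeakSpace ℝ W).symm w ∈ range T :=
    h1.mem_of_convex (LinearMap.range T.toLinearMap).convex (isClosed_range_of_bound T one_pos hT)
      (Eventually.of_forall fun y => mem_range_self _)
  rw [← hx] at h1
  exact ⟨toWeakSpace ℝ X x, hx, (tendsto_weak_iff _ _ _).2 (WConv.of_map T one_pos hT h1)⟩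

theorem main_perfect {𝕜 : Type} [RCLike 𝕜] (X Y : Type) [NormedAddCommGroup X] [NormedSpace 𝕜 X]
    [CompleteSpace X] [NormedAddCommGroup Y] [NormedSpace 𝕜 Y] [CompleteSpace Y]
    (hX : SubWCG 𝕜 X) (h : WeakSpace 𝕜 Y → WeakSpace 𝕜 X) (hh : IsProperMap h) :
    SubWCG 𝕜 Y := by
  obtain ⟨W, _, _, _, hW, j, -⟩ := hX
  let _ : NormedSpace ℝ X := NormedSpace.restrictScalars ℝ 𝕜 X
  let _ : NormedSpace ℝ Y := NormedSpace.restrictScalars ℝ 𝕜 Y
  let _ : NormedSpace ℝ W := NormedSpace.restrictScalars ℝ 𝕜 W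
  have : IsScalarTower ℝ 𝕜 X := RestrictScalars.isScalarTower ℝ 𝕜 X
  have : IsScalarTower ℝ 𝕜 Y := RestrictScalars.isScalarTower ℝ 𝕜 Y
  have : IsScalarTower ℝ 𝕜 W := RestrictScalars.isScalarTower ℝ 𝕜 W
  obtain ⟨K0, hK0, hd0⟩ := hW.real
  obtain ⟨Z, _, _, _, ⟨K, hK, hd⟩, T, c, hc, hT⟩ := superspace_of_perfect hK0 hd0 _
    ((proper_of_isometry (j.toContinuousLinearMap.restrictScalars ℝ) fun x => by
        rw [one_mul]
        exact (j.norm_map x).ge).comp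
      ((weakHomeo 𝕜 X).isProperMap.comp (hh.comp (weakHomeo 𝕜 Y).symm.isProperMap)))
  exact subWCG_of_real hK hd T hc hT

end Pool.Agent.Lib.MP_1b39b5_an
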