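import Mathlib

namespace Pool.Agent.Lib.MP_1b39b5_an

/-- `W` is weakly compactly generated: some weakly compact set has closed linear span `W`. -/
def IsWCG (𝕜 W : Type) [RCLike 𝕜] [NormedAddCommGroup W] [NormedSpace 𝕜 W] : Prop :=
  ∃ K : Set W, IsCompact (toWeakSpace 𝕜 W '' K) ∧ closure (Submodule.span 𝕜 K : Set W) = Set.univ

/-- `X` is linearly isometric to a closed subspace of a weakly compactly generated Banach space. -/
def SubWCG (𝕜 X : Type) [RCLike 𝕜] [NormedAddCommGroup X] [NormedSpace 𝕜 X] : Prop :=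
  ∃ (W : Type) (_ : NormedAddCommGroup W) (_ : NormedSpace 𝕜 W), CompleteSpace W ∧ IsWCG 𝕜 W ∧
    ∃ j : X →ₗᵢ[𝕜] W, IsClosed (Set.range j)

end Pool.Agent.Lib.MP_1b39b5_an
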