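import Pool.Agent.Lib.MP_1b39b5_an.Main
import Pool.Agent.Lib.MP_1b39b5_an.WCG

/-!
From real scalars and isomorphic embeddings to real or complex scalars and isometric embeddings.
-/

open Set Filter Topology

namespace Pool.Agent.Lib.MP_1b39b5_an

variable {𝕜 : Type} [RCLike 𝕜]

section

variable {E : Type} [NormedAddCommGroup E] [NormedSpace 𝕜 E] [NormedSpace ℝ E]
  [IsScalarTower ℝ 𝕜 E]

/-- The weak topology does not depend on the scalar field. -/
noncomputable def weakHomeo (𝕜 E : Type) [RCLike 𝕜] [NormedAddCommGroup E] [NormedSpace 𝕜 E]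
    [NormedSpace ℝ E] [IsScalarTower ℝ 𝕜 E] : WeakSpace 𝕜 E ≃ₜ WeakSpace ℝ E where
  toFun x := toWeakSpace ℝ E ((toWeakSpace 𝕜 E).symm x)
  invFun x := toWeakSpace 𝕜 E ((toWeakSpace ℝ E).symm x)
  left_inv _ := rfl
  right_inv _ := rfl
  continuous_toFun := by
    refine WeakBilin.continuous_of_continuous_eval _ fun g => ?_
    have h := RCLike.continuous_re.comp (WeakBilin.eval_continuous (topDualPairing 𝕜 E).flip
      (StrongDual.extendRCLike (𝕜 := 𝕜) g))
    refine h.congr fun x => ?_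
    exact StrongDual.re_extendRCLike_apply g _
  continuous_invFun := by
    refine WeakBilin.continuous_of_continuous_eval _ fun f => ?_
    have h1 := WeakBilin.eval_continuous (topDualPairing ℝ E).flip
      (RCLike.reCLM.comp (ContinuousLinearMap.restrictScalars ℝ f))
    have h2 := WeakBilin.eval_continuous (topDualPairing ℝ E).flip
      (RCLike.imCLM.comp (ContinuousLinearMap.restrictScalars ℝ f))
    have h := (RCLike.continuous_ofReal.comp h1).add
      ((RCLike.continuous_ofReal.comp h2).mul (continuous_const (y := (RCLike.I : 𝕜))))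
    refine h.congr fun x => ?_
    exact RCLike.re_add_im (f ((toWeakSpace ℝ E).symm x))

theorem compact_real {K : Set E} (hK : IsCompact (toWeakSpace 𝕜 E '' K)) :
    IsCompact (toWeakSpace ℝ E '' K) := by
  have h := hK.image (weakHomeo 𝕜 E).continuous
  rwa [image_image] at h

theorem compact_field {K : Set E} (hK : IsCompact (toWeakSpace ℝ E '' K)) :
    IsCompact (toWeakSpace 𝕜 E '' K) := by
  have h := hK.image (weakHomeo 𝕜 E).symm.continuous
  rwa [image_image] at h

theorem IsWCG.real (h : IsWCG 𝕜 E) :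
    ∃ K : Set E, IsCompact (toWeakSpace ℝ E '' K) ∧ Dense (Submodule.span ℝ K : Set E) := by
  obtain ⟨K, hK, hd⟩ := h
  have hK2 : IsCompact (toWeakSpace 𝕜 E '' ((fun x => (RCLike.I : 𝕜) • x) '' K)) := by
    have h := hK.image (WeakSpace.map ((RCLike.I : 𝕜) • ContinuousLinearMap.id 𝕜 E)).continuous
    rw [image_image] at h ⊢
    exact h
  refine ⟨K ∪ (fun x => (RCLike.I : 𝕜) • x) '' K, ?_, ?_⟩
  · rw [image_union]
    exact (compact_real hK).union (compact_real hK2)
  · set S := Submodule.span ℝ (K ∪ (fun x => (RCLike.I : 𝕜) • x) '' K) with hS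
    have hI : ∀ x ∈ S, (RCLike.I : 𝕜) • x ∈ S := by
      intro x hx
      induction hx using Submodule.span_induction with
      | mem x hx =>
        rcases hx with hx | ⟨k, hk, rfl⟩
        · exact Submodule.subset_span (Or.inr ⟨x, hx, rfl⟩)
        · have hk' : k ∈ S := Submodule.subset_span (Or.inl hk)
          rcases eq_or_ne (RCLike.I : 𝕜) 0 with h0 | h0
          · simp [h0]
          · simp only [smul_smul, RCLike.I_mul_I_of_nonzero h0, neg_smul, one_smul]
            exact S.neg_mem hk'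
      | zero => simp
      | add x y _ _ hx hy => rw [smul_add]; exact S.add_mem hx hy
      | smul a x _ hx => rw [smul_comm]; exact S.smul_mem a hx
    have hsub : (Submodule.span 𝕜 K : Set E) ⊆ S := by
      intro x hx
      induction hx using Submodule.span_induction with
      | mem x hx => exact Submodule.subset_span (Or.inl hx)
      | zero => exact S.zero_mem
      | add x y _ _ hx hy => exact S.add_mem hx hy
      | smul c x _ hx =>
        have e : c • x = RCLike.re c • x + RCLike.im c • ((RCLike.I : 𝕜) • x) := by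
          conv_lhs => rw [← RCLike.re_add_im c]
          rw [add_smul, mul_smul, RCLike.real_smul_eq_coe_smul (K := 𝕜),
            RCLike.real_smul_eq_coe_smul (K := 𝕜)]
        rw [e]
        exact S.add_mem (S.smul_mem _ hx) (S.smul_mem _ (hI x hx))
    exact (dense_iff_closure_eq.2 hd).mono hsub

end

theorem exists_factor_bound {X W : Type} [NormedAddCommGroup X] [NormedSpace ℝ X]
    [NormedAddCommGroup W] [NormedSpace ℝ W] (T : X →L[ℝ] W) {c : ℝ} (hc : 0 < c)
    (hT : ∀ x, c * ‖x‖ ≤ ‖T x‖) (f : X →ₗ[ℝ] ℝ) (hf : ∀ x, ‖f x‖ ≤ ‖x‖) :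
    ∃ g : StrongDual ℝ W, (∀ x, g (T x) = f x) ∧ ‖g‖ ≤ c⁻¹ := by
  have hinj : Function.Injective T := by
    rw [injective_iff_map_eq_zero]
    intro x hx
    have := hT x
    rw [hx, norm_zero] at this
    exact norm_le_zero_iff.1 (by nlinarith [norm_nonneg x])
  let e := LinearEquiv.ofInjective T.toLinearMap hinj
  let f0 : LinearMap.range T.toLinearMap →ₗ[ℝ] ℝ := f ∘ₗ e.symm.toLinearMap
  have hf0 : ∀ z : LinearMap.range T.toLinearMap, ‖f0 z‖ ≤ c⁻¹ * ‖z‖ := by
    intro z
    obtain ⟨x, rfl⟩ := e.surjective z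
    have h1 : f0 (e x) = f x := by simp [f0]
    have h2 : ‖e x‖ = ‖T x‖ := rfl
    rw [h1, h2, le_inv_mul_iff₀ hc]
    exact (mul_le_mul_of_nonneg_left (hf x) hc.le).trans (hT x)
  obtain ⟨g, hg, hn⟩ := exists_extension_norm_eq (LinearMap.range T.toLinearMap)
    (f0.mkContinuous _ hf0)
  refine ⟨g, fun x => ?_, hn.le.trans (f0.mkContinuous_norm_le (inv_pos.2 hc).le hf0)⟩
  have h4 : f0 (e x) = f x := by simp [f0]
  exact (hg (e x)).trans h4

theorem subWCG_of_real {Y Z : Type} [NormedAddCommGroup Y] [NormedSpace 𝕜 Y] [NormedSpace ℝ Y]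
    [IsScalarTower ℝ 𝕜 Y] [CompleteSpace Y] [NormedAddCommGroup Z] [NormedSpace ℝ Z] {K : Set Z}
    (hK : IsCompact (toWeakSpace ℝ Z '' K)) (hd : Dense (Submodule.span ℝ K : Set Z))
    (T : Y →L[ℝ] Z) {c : ℝ} (hc : 0 < c) (hT : ∀ y, c * ‖y‖ ≤ ‖T y‖) : SubWCG 𝕜 Y := by
  let Γ : Type := {f : StrongDual 𝕜 Y // ‖f‖ ≤ 1}
  have hle : ∀ (f : Γ) (y : Y), ‖f.1 y‖ ≤ ‖y‖ := fun f y =>
    (f.1.le_opNorm y).trans (mul_le_of_le_one_left (norm_nonneg y) f.2)
  choose g hg1 hg2 using fun f : Γ => exists_factor_bound T hc hT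
    (RCLike.reCLM.comp (ContinuousLinearMap.restrictScalars ℝ f.1)).toLinearMap
    fun y => (RCLike.norm_re_le_norm (f.1 y)).trans (hle f y)
  let B : Type := lp (fun _ : Γ => 𝕜) ⊤
  have hgz : ∀ (z : Z) (f : Γ), ‖((g f z : ℝ) : 𝕜)‖ ≤ c⁻¹ * ‖z‖ := fun z f => by
    rw [RCLike.norm_ofReal]
    exact ((g f).le_opNorm z).trans (mul_le_mul_of_nonneg_right (hg2 f) (norm_nonneg z))
  let S0 : Z →ₗ[ℝ] B :=
    { toFun := fun z => ⟨fun f => ((g f z : ℝ) : 𝕜), memℓp_infty ⟨c⁻¹ * ‖z‖, by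
        rintro _ ⟨f, rfl⟩
        exact hgz z f⟩⟩
      map_add' := fun z w => by
        refine lp.ext (funext fun f => ?_)
        change ((g f (z + w) : ℝ) : 𝕜) = ((g f z : ℝ) : 𝕜) + ((g f w : ℝ) : 𝕜)
        rw [map_add, RCLike.ofReal_add]
      map_smul' := fun a z => by
        refine lp.ext (funext fun f => ?_)
        change ((g f (a • z) : ℝ) : 𝕜) = a • ((g f z : ℝ) : 𝕜)
        rw [map_smul, smul_eq_mul, RCLike.ofReal_mul, RCLike.real_smul_eq_coe_mul] }
  let S : Z →L[ℝ] B := S0.mkContinuous c⁻¹ fun z =>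
    lp.norm_le_of_forall_le (by positivity) fun f => hgz z f
  let j0 : Y →ₗᵢ[𝕜] B :=
    { toFun := fun y => ⟨fun f => f.1 y, memℓp_infty ⟨‖y‖, by
        rintro _ ⟨f, rfl⟩
        exact hle f y⟩⟩
      map_add' := fun z w => lp.ext (funext fun f => map_add f.1 z w)
      map_smul' := fun a z => lp.ext (funext fun f => map_smul f.1 a z)
      norm_map' := fun y => by
        refine le_antisymm (lp.norm_le_of_forall_le (norm_nonneg y) fun f => hle f y) ?_
        obtain ⟨f, hf1, hf2⟩ := exists_dual_vector'' 𝕜 y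
        refine le_trans ?_ (lp.norm_apply_le_norm ENNReal.top_ne_zero _ ⟨f, hf1⟩)
        change ‖y‖ ≤ ‖f y‖
        rw [hf2, RCLike.norm_ofReal, abs_norm] }
  let W : Submodule 𝕜 B := (Submodule.span 𝕜 (S '' K)).topologicalClosure
  have hWc : IsClosed (W : Set B) := Submodule.isClosed_topologicalClosure _
  have hSK : S '' K ⊆ W := Submodule.subset_span.trans (Submodule.le_topologicalClosure _)
  have hSW : ∀ z, S z ∈ W := by
    intro z
    have h1 : (Submodule.span ℝ K : Set Z) ⊆ S ⁻¹' W :=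
      (Submodule.span_le (p := (W.restrictScalars ℝ).comap S.toLinearMap)).2
        fun k hk => hSK ⟨k, hk, rfl⟩
    exact (hWc.preimage S.continuous).closure_subset_iff.2 h1 (hd z)
  have hjW : ∀ y, j0 y ∈ W := by
    intro y
    have e : j0 y = S (T y) - (RCLike.I : 𝕜) • S (T ((RCLike.I : 𝕜) • y)) := by
      refine lp.ext (funext fun f => ?_)
      change f.1 y = ((g f (T y) : ℝ) : 𝕜) - RCLike.I * ((g f (T ((RCLike.I : 𝕜) • y)) : ℝ) : 𝕜)
      rw [hg1, hg1]
      exact (DFunLike.congr_fun ((StrongDual.extendRCLikeₗ (𝕜 := 𝕜)).right_inv f.1) y).symm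
    rw [e]
    exact W.sub_mem (hSW _) (W.smul_mem _ (hSW _))
  let S' : Z →L[ℝ] W := S.codRestrict (W.restrictScalars ℝ) hSW
  let j : Y →ₗᵢ[𝕜] W := ⟨j0.toLinearMap.codRestrict W hjW, j0.norm_map⟩
  refine ⟨W, inferInstance, inferInstance, hWc.completeSpace_coe, ⟨S' '' K, ?_, ?_⟩, j,
    j.isometry.isClosedEmbedding.isClosed_range⟩
  · refine compact_field ?_
    have h := hK.image (WeakSpace.map S').continuous
    rw [image_image] at h ⊢
    exact h
  · rw [← dense_iff_closure_eq, Subtype.dense_iff]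
    have h1 : Submodule.span 𝕜 (S '' K) ≤ (Submodule.span 𝕜 (S' '' K)).map W.subtype := by
      rw [Submodule.span_le]
      rintro _ ⟨k, hk, rfl⟩
      exact ⟨S' k, Submodule.subset_span ⟨k, hk, rfl⟩, rfl⟩
    exact closure_mono h1

theorem main_field (X Y : Type) [NormedAddCommGroup X] [NormedSpace 𝕜 X] [CompleteSpace X]
    [NormedAddCommGroup Y] [NormedSpace 𝕜 Y] [CompleteSpace Y] (hX : SubWCG 𝕜 X)
    (e : WeakSpace 𝕜 X ≃ₜ WeakSpace 𝕜 Y) : SubWCG 𝕜 Y := by
  obtain ⟨W, _, _, _, hW, j, -⟩ := hX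
  let _ : NormedSpace ℝ X := NormedSpace.restrictScalars ℝ 𝕜 X
  let _ : NormedSpace ℝ Y := NormedSpace.restrictScalars ℝ 𝕜 Y
  let _ : NormedSpace ℝ W := NormedSpace.restrictScalars ℝ 𝕜 W
  have : IsScalarTower ℝ 𝕜 X := RestrictScalars.isScalarTower ℝ 𝕜 X
  have : IsScalarTower ℝ 𝕜 Y := RestrictScalars.isScalarTower ℝ 𝕜 Y
  have : IsScalarTower ℝ 𝕜 W := RestrictScalars.isScalarTower ℝ 𝕜 W
  obtain ⟨Z, _, _, _, ⟨K, hK, hd⟩, T, c, hc, hT⟩ := main X Y
    ⟨W, inferInstance, inferInstance, inferInstance, hW.real,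
      j.toContinuousLinearMap.restrictScalars ℝ, 1, one_pos, fun x => by
        rw [one_mul]
        exact (j.norm_map x).ge⟩
    ⟨(weakHomeo 𝕜 X).symm.trans (e.trans (weakHomeo 𝕜 Y))⟩
  exact subWCG_of_real hK hd T hc hT

end Pool.Agent.Lib.MP_1b39b5_an
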